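import Pool.Agent.R529.Core

/-!
Squares of functions of level `X` and the survivors of a sieve in intervals of length at least
`(log X) ^ (2 + ε)`.
-/

set_option autoImplicit false

namespace Pool.Agent.R529

open Finset Pool.Agent.Y835.SB

/-- the analytic condition -/
theorem ev_cond (θ A B : ℝ) (hθ0 : 0 < θ) (hθ : θ < 1) : ∃ W0 : ℝ, 2 ≤ W0 ∧
    ∀ W : ℝ, W0 ≤ W → A * (Real.log W + B) * Real.log W * W ^ θ ≤ W := by
  have h1 : ∀ᶠ W : ℝ in Filter.atTop, A * (Real.log W + B) * Real.log W ≤ W ^ (1 - θ) := by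
    have hκ : 0 < (1 - θ) / 3 := by linarith
    have h2 := (isLittleO_log_rpow_atTop hκ).def one_pos
    have h3 : ∀ᶠ W : ℝ in Filter.atTop, |A| * (1 + |B|) ≤ W ^ ((1 - θ) / 3) :=
      (tendsto_rpow_atTop hκ).eventually_ge_atTop _
    filter_upwards [h2, h3, Filter.eventually_ge_atTop (Real.exp 1)] with W a1 a2 a3
    have hW1 : 1 < W := lt_of_lt_of_le (by have := Real.exp_one_gt_d9; linarith) a3
    have hW0 : 0 < W := by linarith
    have hl : 1 ≤ Real.log W := by rwa [Real.le_log_iff_exp_le hW0]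
    rw [one_mul, Real.norm_of_nonneg (by linarith), Real.norm_of_nonneg (by positivity)] at a1
    set V := W ^ ((1 - θ) / 3) with hV
    have hV0 : 0 < V := by positivity
    have h4 : W ^ (1 - θ) = V * V * V := by
      rw [hV, ← Real.rpow_add hW0, ← Real.rpow_add hW0]
      congr 1
      ring
    rw [h4]
    have h5 : A * (Real.log W + B) ≤ |A| * (1 + |B|) * Real.log W := by
      calc A * (Real.log W + B) ≤ |A * (Real.log W + B)| := le_abs_self _
        _ = |A| * |Real.log W + B| := abs_mul _ _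
        _ ≤ |A| * (Real.log W + |B|) := by
          refine mul_le_mul_of_nonneg_left ?_ (abs_nonneg _)
          refine (abs_add_le _ _).trans ?_
          rw [abs_of_nonneg (by linarith : 0 ≤ Real.log W)]
        _ ≤ |A| * ((1 + |B|) * Real.log W) := by
          refine mul_le_mul_of_nonneg_left ?_ (abs_nonneg _)
          nlinarith [abs_nonneg B]
        _ = _ := by ring
    calc A * (Real.log W + B) * Real.log W ≤ |A| * (1 + |B|) * Real.log W * Real.log W :=
          mul_le_mul_of_nonneg_right h5 (by linarith)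
      _ ≤ V * V * V := by
        refine mul_le_mul (mul_le_mul a2 a1 (by linarith) hV0.le) a1 (by linarith) (by positivity)
  obtain ⟨W1, hW1⟩ := Filter.eventually_atTop.1 h1
  refine ⟨max W1 2, le_max_right _ _, fun W hW => ?_⟩
  have hW2 : 2 ≤ W := (le_max_right _ _).trans hW
  have hW0 : 0 < W := by linarith
  have h2 := mul_le_mul_of_nonneg_right (hW1 W ((le_max_left _ _).trans hW))
    (by positivity : 0 ≤ W ^ θ)
  refine h2.trans (le_of_eq ?_)
  rw [← Real.rpow_add hW0]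
  have : 1 - θ + θ = 1 := by ring
  rw [this, Real.rpow_one]

open Classical in
/-- the barrier for one square -/
theorem one_square (ε : ℝ) (hε : 0 < ε) (hε1 : ε ≤ 1) : ∃ c : ℝ, 0 < c ∧ ∃ X₀ : ℕ, ∀ X : ℕ, X₀ ≤ X →
    ∀ U : ℕ, Real.log X ^ (2 + ε) ≤ U → ∀ P : Finset ℕ, (∀ p ∈ P, p.Prime) →
    ∀ {ι : Type} (I : Finset ι) (d : ι → ℕ) (f : ι → ℕ → ℝ),
    (∀ i ∈ I, 0 < d i ∧
      ∏ p ∈ (d i).primeFactors.filter (fun p : ℕ => Real.log X ^ (1 + ε / 5) < p), p ≤ X ∧
      Function.Periodic (f i) (d i)) → ∀ {N : ℕ}, 0 < N →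
    (∀ p ∈ P, p ∣ N) → (∀ i ∈ I, d i ∣ N) →
    c * (U * ∏ p ∈ P, (1 - 1 / (p : ℝ))) * ∑ n ∈ range N, (∑ i ∈ I, f i n) ^ 2 ≤
      ∑ n ∈ range N, (∑ i ∈ I, f i n) ^ 2 *
        (((Icc 1 U).filter (fun h => ∀ p ∈ P, ¬ p ∣ n + h)).card : ℝ) := by
  set ε' : ℝ := ε / 2 with hε'
  have hε'0 : 0 < ε' := by positivity
  have hε'1 : ε' ≤ 1 := by rw [hε']; linarith
  have hε'ε : ε' < ε := by rw [hε']; linarith
  obtain ⟨c0, hc0, Y0, HS⟩ := sub_low ε' hε'0 hε'1
  obtain ⟨C1, hC1, HI⟩ := sum_inv_le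
  obtain ⟨cM, hcM, HM⟩ := prod_ge
  set θ : ℝ := (2 + ε') / (2 + ε) with hθ
  have hθ0 : 0 < θ := by positivity
  have hθ1 : θ < 1 := by rw [hθ, div_lt_one (by positivity)]; linarith
  -- `η = 1/4`
  obtain ⟨W0, hW0, HW⟩ := ev_cond θ (5 / (1 / 4) * (1 / cM) * 2 * 16 / (c0 * cM)) (C1 + 1) hθ0 hθ1
  obtain ⟨X1, hX1⟩ : ∃ X1 : ℕ, ∀ X : ℕ, X1 ≤ X → W0 ≤ Real.log X ^ (1 / θ) ∧
      (Y0 : ℝ) ≤ Real.log X ^ (2 + ε) ∧ 1 ≤ Real.log (Real.log X) := by
    have t1 : Filter.Tendsto (fun X : ℕ => Real.log (X : ℝ)) Filter.atTop Filter.atTop :=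
      Real.tendsto_log_atTop.comp tendsto_natCast_atTop_atTop
    have h1 := ((tendsto_rpow_atTop (by positivity : 0 < 1 / θ)).comp t1).eventually_ge_atTop W0
    have h2 := ((tendsto_rpow_atTop (by positivity : 0 < 2 + ε)).comp t1).eventually_ge_atTop (Y0 : ℝ)
    have h3 := (Real.tendsto_log_atTop.comp t1).eventually_ge_atTop 1
    exact Filter.eventually_atTop.1 (h1.and (h2.and h3))
  refine ⟨c0 / 2, by positivity, max X1 3, fun X hX U hU P hP ι I d f hf N hN hPN hIN => ?_⟩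
  obtain ⟨k1, k2, k3⟩ := hX1 X ((le_max_left _ _).trans hX)
  have hX3 : 3 ≤ X := (le_max_right _ _).trans hX
  have hXr : (3 : ℝ) ≤ X := by exact_mod_cast hX3
  set L := Real.log (X : ℝ) with hL
  have hL1 : 1 < L := by
    rw [hL, Real.lt_log_iff_exp_lt (by linarith)]
    have := Real.exp_one_lt_d9
    linarith
  have hL0 : 0 < L := by linarith
  have hlL : 0 < Real.log L := Real.log_pos hL1
  have hUY : Y0 ≤ U := by exact_mod_cast k2.trans hU
  have hU1 : (1 : ℝ) < U := lt_of_lt_of_le (Real.one_lt_rpow hL1 (by positivity)) hU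
  have hU0 : (0 : ℝ) < U := by linarith
  set W : ℝ := (U : ℝ) ^ (1 / (2 + ε')) with hW
  have hWpos : 0 < W := by positivity
  have hLW : L ≤ W ^ θ := by
    have h1 : W ^ θ = (U : ℝ) ^ (1 / (2 + ε)) := by
      rw [hW, ← Real.rpow_mul hU0.le, hθ]
      congr 1
      field_simp
    rw [h1]
    have h2 : (L ^ (2 + ε)) ^ (1 / (2 + ε)) ≤ (U : ℝ) ^ (1 / (2 + ε)) :=
      Real.rpow_le_rpow (by positivity) hU (by positivity)
    rwa [← Real.rpow_mul hL0.le, mul_one_div_cancel (by positivity), Real.rpow_one] at h2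
  have hW0W : W0 ≤ W := by
    refine k1.trans ?_
    have h2 : L ^ (1 / θ) ≤ (W ^ θ) ^ (1 / θ) := Real.rpow_le_rpow hL0.le hLW (by positivity)
    rwa [← Real.rpow_mul hWpos.le, mul_one_div_cancel hθ0.ne', Real.rpow_one] at h2
  have hW2 : 2 ≤ W := hW0.trans hW0W
  have hW1 : 1 < W := by linarith
  have hlW : 0 < Real.log W := Real.log_pos hW1
  have hWU : W ≤ U := by
    calc W ≤ (U : ℝ) ^ (1 : ℝ) := by
          refine Real.rpow_le_rpow_of_exponent_le hU1.le ?_
          rw [div_le_one (by positivity)]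
          linarith
      _ = U := Real.rpow_one _
  have hlLW : Real.log L ≤ Real.log W := by
    refine Real.log_le_log hL0 (hLW.trans ?_)
    calc W ^ θ ≤ W ^ (1 : ℝ) := Real.rpow_le_rpow_of_exponent_le hW1.le hθ1.le
      _ = W := Real.rpow_one _
  set Λ : ℝ := Real.log L + C1 + 1 with hΛ
  have hΛ1 : 1 ≤ Λ := by rw [hΛ]; linarith
  set S := P.filter (fun p : ℕ => (p : ℝ) ≤ W) with hS
  have hSp : ∀ p ∈ S, p.Prime ∧ (p : ℝ) ≤ W := fun p hp => ⟨hP p (mem_filter.1 hp).1, (mem_filter.1 hp).2⟩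
  have hV1 : 0 ≤ ∏ p ∈ S, (1 - 1 / (p : ℝ)) := prod_nonneg fun p hp => by
    have : (2 : ℝ) ≤ p := by exact_mod_cast (hSp p hp).1.two_le
    rw [sub_nonneg, div_le_one (by linarith)]; linarith
  set σ : ℝ := c0 * (U * ∏ p ∈ S, (1 - 1 / (p : ℝ))) with hσ
  have hVlow : cM / Real.log (W + 2) ≤ ∏ p ∈ S, (1 - 1 / (p : ℝ)) := by
    have h1 := HM (⌊W⌋₊ + 1) (by
      have : 1 ≤ ⌊W⌋₊ := Nat.le_floor (by rw [Nat.cast_one]; exact hW1.le)
      omega) S fun p hp => ⟨(hSp p hp).1, by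
      have := Nat.le_floor (hSp p hp).2
      omega⟩
    refine le_trans ?_ h1
    have h2 : ((⌊W⌋₊ + 1 : ℕ) : ℝ) ≤ W + 2 := by
      push_cast
      have := Nat.floor_le hWpos.le
      linarith
    have h3 : (2 : ℝ) ≤ ((⌊W⌋₊ + 1 : ℕ) : ℝ) := by
      have : 1 ≤ ⌊W⌋₊ := Nat.le_floor (by rw [Nat.cast_one]; exact hW1.le)
      exact_mod_cast (by omega : 2 ≤ ⌊W⌋₊ + 1)
    exact div_le_div_of_nonneg_left hcM.le (Real.log_pos (by linarith)) (Real.log_le_log (by linarith) h2)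
  have hzW : L ^ (1 + ε / 5) ≤ W := by
    have h1 : L ^ (1 / θ) ≤ (W ^ θ) ^ (1 / θ) := Real.rpow_le_rpow hL0.le hLW (by positivity)
    rw [← Real.rpow_mul hWpos.le, mul_one_div_cancel hθ0.ne', Real.rpow_one] at h1
    refine le_trans (Real.rpow_le_rpow_of_exponent_le hL1.le ?_) h1
    rw [hθ, one_div_div, le_div_iff₀ (by positivity), hε']
    nlinarith
  have hcore := core' hcM HM (W := W) (R := (X : ℝ)) (Λ := Λ) (σ := σ) (η := 1 / 4) (by norm_num)
    (by norm_num) hW1.le hΛ1 (y := U) hP ?_ ?_ ?_ I d f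
    (fun i hi => ⟨(hf i hi).1, ?_, (hf i hi).2.2⟩) hN hPN hIN
  · have e1 : ∏ p ∈ P, (1 - 1 / (p : ℝ)) =
        (∏ p ∈ S, (1 - 1 / (p : ℝ))) * ∏ p ∈ P.filter (fun p : ℕ => W < (p : ℝ)), (1 - 1 / (p : ℝ)) := by
      rw [hS, ← prod_filter_mul_prod_filter_not P (fun p : ℕ => (p : ℝ) ≤ W)]
      congr 1
      refine prod_congr (filter_congr fun p _ => not_le) fun _ _ => rfl
    refine le_trans (le_of_eq ?_) hcore
    rw [e1, hσ]
    ring
  · -- Λ
    have h1 := HI X (by omega) ((P.filter (fun p : ℕ => W < (p : ℝ))).filter (fun p : ℕ => (p : ℝ) ≤ (X : ℝ)))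
      fun p hp => ⟨hP p (mem_filter.1 (mem_filter.1 hp).1).1, by exact_mod_cast (mem_filter.1 hp).2⟩
    rw [hΛ]
    linarith
  · intro n
    exact HS U hUY n S hSp
  · -- the main condition
    have h1 := HW W hW0W
    have hlW2 : Real.log (W + 2) ≤ 4 * Real.log W := by
      have h2 : Real.log (W + 2) ≤ Real.log (W ^ 4) := by
        refine Real.log_le_log (by linarith) ?_
        have h3 : 2 ^ 3 ≤ W ^ 3 := pow_le_pow_left₀ (by norm_num) hW2 3
        have h4 : W ^ 4 = W * W ^ 3 := by ring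
        rw [h4]
        nlinarith
      rw [Real.log_pow] at h2
      exact_mod_cast h2
    have h3 : cM / (4 * Real.log W) ≤ ∏ p ∈ S, (1 - 1 / (p : ℝ)) := by
      refine le_trans ?_ hVlow
      exact div_le_div_of_nonneg_left hcM.le (Real.log_pos (by linarith)) hlW2
    have h4 : c0 * (U * (cM / (4 * Real.log W))) ≤ σ := by
      rw [hσ]
      refine mul_le_mul_of_nonneg_left ?_ hc0.le
      exact mul_le_mul_of_nonneg_left h3 hU0.le
    refine le_trans ?_ (mul_le_mul_of_nonneg_left h4 (by norm_num : (0 : ℝ) ≤ 1 / 4))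
    have h5 : (U : ℝ) / W + 1 ≤ 2 * (U / W) := by
      have : 1 ≤ (U : ℝ) / W := by rwa [le_div_iff₀ hWpos, one_mul]
      linarith
    have h6 : Λ ≤ Real.log W + (C1 + 1) := by rw [hΛ]; linarith
    calc 5 * Λ / (1 / 4) * (1 / cM) * (U / W + 1) * L
        ≤ 5 * (Real.log W + (C1 + 1)) / (1 / 4) * (1 / cM) * (2 * (U / W)) * W ^ θ := by
          have hb : 0 ≤ Real.log W + (C1 + 1) := by positivity
          refine mul_le_mul (mul_le_mul ?_ h5 (by positivity) (by positivity)) hLW hL0.le (by positivity)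
          refine mul_le_mul_of_nonneg_right ?_ (by positivity)
          refine div_le_div_of_nonneg_right ?_ (by norm_num)
          linarith
      _ = (c0 * cM) / (16 * Real.log W) * (U / W) *
          (5 / (1 / 4) * (1 / cM) * 2 * 16 / (c0 * cM) * (Real.log W + (C1 + 1)) * Real.log W * W ^ θ) := by
          field_simp
      _ ≤ (c0 * cM) / (16 * Real.log W) * (U / W) * W := by
          refine mul_le_mul_of_nonneg_left h1 (by positivity)
      _ = _ := by
        field_simp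
        norm_num
  · -- the level
    have h1 := (hf i hi).2.1
    have h2 : ∏ p ∈ (d i).primeFactors.filter (fun p : ℕ => W < (p : ℝ)), p ≤
        ∏ p ∈ (d i).primeFactors.filter (fun p : ℕ => L ^ (1 + ε / 5) < (p : ℝ)), p := by
      refine prod_le_prod_of_subset_of_one_le' (fun p hp => ?_) fun p hp _ =>
        (Nat.prime_of_mem_primeFactors (mem_filter.1 hp).1).pos
      exact mem_filter.2 ⟨(mem_filter.1 hp).1, lt_of_le_of_lt hzW (mem_filter.1 hp).2⟩
    exact_mod_cast h2.trans h1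

end Pool.Agent.R529
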