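import Pool.Agent.H398R2.RK.Smooth

/-!
Smooth numbers: `#{n ≤ Y : every prime factor of n is ≤ v} ≤ C Y exp(- log Y / (6 log v))`.
-/

set_option autoImplicit false

namespace Pool.Agent.R529

open Finset

open Classical in
/-- the `v`-smooth integers up to `Y` -/
noncomputable def Sm (Y v : ℕ) : Finset ℕ :=
  (Icc 1 Y).filter (fun n => ∀ p : ℕ, p.Prime → p ∣ n → p ≤ v)

theorem mem_Sm {Y v n : ℕ} : n ∈ Sm Y v ↔ (1 ≤ n ∧ n ≤ Y) ∧ ∀ p : ℕ, p.Prime → p ∣ n → p ≤ v := by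
  classical
  unfold Sm
  rw [mem_filter, mem_Icc]

theorem log_le_sum {Y v n : ℕ} (hn : n ∈ Sm Y v) : Real.log n ≤
    ∑ p ∈ (Icc 1 v).filter Nat.Prime, ∑ k ∈ Icc 1 Y, if p ^ k ∣ n then Real.log p else 0 := by
  obtain ⟨⟨h1, h2⟩, h3⟩ := mem_Sm.1 hn
  have hn0 : n ≠ 0 := by omega
  rw [Real.log_nat_eq_sum_factorization, Finsupp.sum_of_support_subset (s := (Icc 1 v).filter Nat.Prime)]
  · refine sum_le_sum fun p hp => ?_
    obtain ⟨hp1, hpp⟩ := mem_filter.1 hp
    rw [← sum_filter, sum_const, nsmul_eq_mul]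
    refine mul_le_mul_of_nonneg_right ?_ (Real.log_natCast_nonneg p)
    have h4 : Icc 1 (n.factorization p) ⊆ (Icc 1 Y).filter (fun k => p ^ k ∣ n) := by
      intro k hk
      rw [mem_Icc] at hk
      have h5 : p ^ k ∣ n := (pow_dvd_pow p hk.2).trans (Nat.ordProj_dvd n p)
      have h6 : k < p ^ k := Nat.lt_pow_self hpp.one_lt
      have h7 : p ^ k ≤ n := Nat.le_of_dvd (by omega) h5
      rw [mem_filter, mem_Icc]
      exact ⟨⟨hk.1, by omega⟩, h5⟩
    have h5 := card_le_card h4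
    rw [Nat.card_Icc, Nat.add_sub_cancel] at h5
    exact_mod_cast h5
  · intro p hp
    rw [Nat.support_factorization] at hp
    have hpp := Nat.prime_of_mem_primeFactors hp
    rw [mem_filter, mem_Icc]
    exact ⟨⟨hpp.pos, h3 p hpp (Nat.dvd_of_mem_primeFactors hp)⟩, hpp⟩
  · intro p _
    simp

theorem card_dvd_le {Y v e : ℕ} (he : 0 < e) :
    ((Sm Y v).filter (fun n => e ∣ n)).card ≤ ((Sm Y v).filter (fun m => e * m ≤ Y)).card := by
  refine card_le_card_of_injOn (fun n => n / e) ?_ ?_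
  · intro n hn
    rw [mem_coe, mem_filter] at hn ⊢
    obtain ⟨hn1, c, rfl⟩ := hn
    obtain ⟨⟨h1, h2⟩, h3⟩ := mem_Sm.1 hn1
    beta_reduce
    rw [Nat.mul_div_cancel_left c he]
    refine ⟨mem_Sm.2 ⟨⟨?_, ?_⟩, fun p hp hd => h3 p hp (hd.mul_left e)⟩, h2⟩
    · rcases Nat.eq_zero_or_pos c with h | h
      · rw [h] at h1; omega
      · exact h
    · exact (Nat.le_mul_of_pos_left c he).trans h2
  · intro n hn m hm h
    rw [mem_coe, mem_filter] at hn hm
    beta_reduce at h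
    exact (Nat.div_left_inj hn.2 hm.2).1 h

/-- `π(w) log w ≤ 4 w` -/
theorem pi_log (w : ℕ) : (((Icc 1 w).filter Nat.Prime).card : ℝ) * Real.log w ≤ 4 * w := by
  rcases Nat.lt_or_ge w 2 with h | h
  · have : w = 0 ∨ w = 1 := by omega
    rcases this with rfl | rfl <;> simp
  have hw : (1 : ℝ) < w := by exact_mod_cast (by omega : 1 < w)
  have hw0 : (0 : ℝ) < w := by linarith
  have h1 := Chebyshev.pi_le_log4_mul_div hw
  rw [Nat.floor_natCast] at h1
  have h2 : (((Icc 1 w).filter Nat.Prime).card : ℝ) = Nat.primeCounting w := by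
    rw [Nat.primeCounting, Nat.primeCounting', Nat.count_eq_card_filter_range]
    congr 2
    ext p
    simp only [mem_filter, mem_Icc, mem_range]
    constructor
    · rintro ⟨⟨h1, h2⟩, h3⟩; exact ⟨by omega, h3⟩
    · rintro ⟨h1, h2⟩; exact ⟨⟨h2.one_le, by omega⟩, h2⟩
  rw [h2]
  have hl : 0 < Real.log w := Real.log_pos hw
  have h3 : Real.log (√w) = Real.log w / 2 := by rw [Real.log_sqrt hw0.le]
  rw [h3] at h1
  have h4 : Real.log w ≤ √w * 1 := by
    have h5 := Real.add_one_le_exp (Real.log w / 2 - 1)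
    have h6 : Real.exp (Real.log w / 2 - 1) = √w / Real.exp 1 := by
      rw [Real.exp_sub, ← h3, Real.exp_log (by positivity)]
    rw [h6] at h5
    have h7 : √w / Real.exp 1 ≤ √w / 2 :=
      div_le_div_of_nonneg_left (by positivity) (by norm_num) (by
        have := Real.exp_one_gt_d9; linarith)
    linarith
  have h5 : Real.log 4 ≤ 1.4 := by
    rw [show (4 : ℝ) = 2 ^ 2 by norm_num, Real.log_pow]
    have := Real.log_two_lt_d9
    push_cast; linarith
  have h6 : √w * √w = w := Real.mul_self_sqrt hw0.le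
  calc (Nat.primeCounting w : ℝ) * Real.log w ≤ (Real.log 4 * w / (Real.log w / 2) + √w) * Real.log w :=
        mul_le_mul_of_nonneg_right h1 hl.le
    _ = 2 * Real.log 4 * w + √w * Real.log w := by field_simp
    _ ≤ 2 * 1.4 * w + √w * (√w * 1) := by
        refine add_le_add ?_ (mul_le_mul_of_nonneg_left h4 (by positivity))
        exact mul_le_mul_of_nonneg_right (by linarith) hw0.le
    _ ≤ 4 * w := by rw [mul_one, h6]; linarith

/-- the inner sum -/
theorem inner_le {Y v m : ℕ} (hm : 1 ≤ m) (hmY : m ≤ Y) :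
    ∑ p ∈ (Icc 1 v).filter Nat.Prime, ∑ k ∈ Icc 1 Y, (if p ^ k * m ≤ Y then Real.log p else 0) ≤
      (((Icc 1 (min v (Y / m))).filter Nat.Prime).card : ℝ) * Real.log ((Y / m : ℕ) : ℝ) := by
  have hT : 1 ≤ Y / m := (Nat.one_le_div_iff (by omega)).2 hmY
  have h1 : ∀ p ∈ (Icc 1 v).filter Nat.Prime,
      ∑ k ∈ Icc 1 Y, (if p ^ k * m ≤ Y then Real.log p else 0) ≤
        if p ≤ Y / m then Real.log ((Y / m : ℕ) : ℝ) else 0 := by
    intro p hp
    obtain ⟨hp1, hpp⟩ := mem_filter.1 hp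
    rw [← sum_filter, sum_const, nsmul_eq_mul]
    have h2 : (Icc 1 Y).filter (fun k => p ^ k * m ≤ Y) ⊆ Icc 1 (Nat.log p (Y / m)) := by
      intro k hk
      rw [mem_filter, mem_Icc] at hk
      rw [mem_Icc]
      refine ⟨hk.1.1, ?_⟩
      have h3 : p ^ k ≤ Y / m := (Nat.le_div_iff_mul_le (by omega)).2 hk.2
      exact Nat.le_log_of_pow_le hpp.one_lt h3
    have h3 := card_le_card h2
    rw [Nat.card_Icc, Nat.add_sub_cancel] at h3
    split_ifs with h4
    · have h5 : ((Nat.log p (Y / m) : ℕ) : ℝ) * Real.log p ≤ Real.log ((Y / m : ℕ) : ℝ) := by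
        rw [← Real.log_pow]
        refine Real.log_le_log ?_ ?_
        · have := hpp.pos
          positivity
        · exact_mod_cast Nat.pow_log_le_self p (by omega)
      refine le_trans ?_ h5
      refine mul_le_mul_of_nonneg_right ?_ (Real.log_natCast_nonneg p)
      exact_mod_cast h3
    · have h5 : Nat.log p (Y / m) = 0 := Nat.log_of_lt (by omega)
      rw [h5] at h3
      have h6 : ((Icc 1 Y).filter (fun k => p ^ k * m ≤ Y)).card = 0 := by omega
      rw [h6]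
      simp
  refine (sum_le_sum h1).trans ?_
  rw [← sum_filter, sum_const, nsmul_eq_mul]
  refine mul_le_mul_of_nonneg_right ?_ (Real.log_natCast_nonneg _)
  have h2 : ((Icc 1 v).filter Nat.Prime).filter (fun p => p ≤ Y / m) ⊆
      (Icc 1 (min v (Y / m))).filter Nat.Prime := by
    intro p hp
    rw [mem_filter, mem_filter, mem_Icc] at hp
    rw [mem_filter, mem_Icc]
    exact ⟨⟨hp.1.1.1, by omega⟩, hp.1.2⟩
  exact_mod_cast card_le_card h2

theorem sum_log_le (Y v : ℕ) : ∑ n ∈ Sm Y v, Real.log n ≤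
    ∑ m ∈ Sm Y v, (((Icc 1 (min v (Y / m))).filter Nat.Prime).card : ℝ) * Real.log ((Y / m : ℕ) : ℝ) := by
  refine (sum_le_sum fun n hn => log_le_sum hn).trans ?_
  have e1 : ∑ n ∈ Sm Y v, ∑ p ∈ (Icc 1 v).filter Nat.Prime, ∑ k ∈ Icc 1 Y,
      (if p ^ k ∣ n then Real.log p else 0) = ∑ p ∈ (Icc 1 v).filter Nat.Prime, ∑ k ∈ Icc 1 Y,
        ((((Sm Y v).filter (fun n => p ^ k ∣ n)).card : ℝ) * Real.log p) := by
    rw [sum_comm]
    refine sum_congr rfl fun p _ => ?_
    rw [sum_comm]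
    refine sum_congr rfl fun k _ => ?_
    rw [← sum_filter, sum_const, nsmul_eq_mul]
  have e2 : ∑ m ∈ Sm Y v, ∑ p ∈ (Icc 1 v).filter Nat.Prime, ∑ k ∈ Icc 1 Y,
      (if p ^ k * m ≤ Y then Real.log p else 0) = ∑ p ∈ (Icc 1 v).filter Nat.Prime, ∑ k ∈ Icc 1 Y,
        ((((Sm Y v).filter (fun m => p ^ k * m ≤ Y)).card : ℝ) * Real.log p) := by
    rw [sum_comm]
    refine sum_congr rfl fun p _ => ?_
    rw [sum_comm]
    refine sum_congr rfl fun k _ => ?_
    rw [← sum_filter, sum_const, nsmul_eq_mul]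
  have h1 : ∑ m ∈ Sm Y v, ∑ p ∈ (Icc 1 v).filter Nat.Prime, ∑ k ∈ Icc 1 Y,
      (if p ^ k * m ≤ Y then Real.log p else 0) ≤
      ∑ m ∈ Sm Y v, (((Icc 1 (min v (Y / m))).filter Nat.Prime).card : ℝ) * Real.log ((Y / m : ℕ) : ℝ) :=
    sum_le_sum fun m hm => inner_le (mem_Sm.1 hm).1.1 (mem_Sm.1 hm).1.2
  refine le_trans ?_ h1
  rw [e1, e2]
  refine sum_le_sum fun p hp => sum_le_sum fun k _ => ?_
  refine mul_le_mul_of_nonneg_right ?_ (Real.log_natCast_nonneg p)
  have hpp := (mem_filter.1 hp).2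
  exact_mod_cast card_dvd_le (Y := Y) (v := v) (pow_pos hpp.pos k)

/-- the weight of one `m` -/
theorem weight_le {v T : ℕ} {σ : ℝ} (hv : 2 ≤ v) (hT : 1 ≤ T) (hσ1 : 3 / 4 ≤ σ) (hσ2 : σ ≤ 1) :
    (((Icc 1 (min v T)).filter Nat.Prime).card : ℝ) * Real.log T ≤
      16 * ((T : ℝ) ^ σ * (v : ℝ) ^ (1 - σ)) := by
  have hvr : (2 : ℝ) ≤ v := by exact_mod_cast hv
  have hv0 : (0 : ℝ) < v := by linarith
  have hTr : (1 : ℝ) ≤ T := by exact_mod_cast hT
  have hT0 : (0 : ℝ) < T := by linarith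
  have hlv : 0.69 ≤ Real.log v := by
    have := Real.log_two_gt_d9
    have h2 := Real.log_le_log (by norm_num) hvr
    linarith
  rcases le_total T v with h | h
  · rw [min_eq_right h]
    have h1 := pi_log T
    have h2 : (T : ℝ) = (T : ℝ) ^ σ * (T : ℝ) ^ (1 - σ) := by
      rw [← Real.rpow_add hT0]; simp
    have h3 : (T : ℝ) ^ (1 - σ) ≤ (v : ℝ) ^ (1 - σ) :=
      Real.rpow_le_rpow hT0.le (by exact_mod_cast h) (by linarith)
    have h4 : (T : ℝ) ≤ (T : ℝ) ^ σ * (v : ℝ) ^ (1 - σ) := by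
      nth_rewrite 1 [h2]
      exact mul_le_mul_of_nonneg_left h3 (by positivity)
    have h5 : 0 ≤ (T : ℝ) ^ σ * (v : ℝ) ^ (1 - σ) := by positivity
    linarith
  · rw [min_eq_left h]
    have h1 := pi_log v
    have hx : 0 ≤ Real.log (T / v) := by
      apply Real.log_nonneg
      rw [le_div_iff₀ hv0, one_mul]
      exact_mod_cast h
    have hlT : Real.log T = Real.log v + Real.log (T / v) := by
      rw [Real.log_div hT0.ne' hv0.ne']; ring
    have h2 : Real.log T ≤ 4 * (Real.log v * ((T : ℝ) / v) ^ σ) := by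
      have h3 : 1 + σ * Real.log (T / v) ≤ ((T : ℝ) / v) ^ σ := by
        rw [Real.rpow_def_of_pos (by positivity)]
        have := Real.add_one_le_exp (Real.log ((T : ℝ) / v) * σ)
        linarith
      have h4 : Real.log v * (1 + σ * Real.log (T / v)) ≤ Real.log v * ((T : ℝ) / v) ^ σ :=
        mul_le_mul_of_nonneg_left h3 (by linarith)
      have h5 : 0.69 * (3 / 4) * Real.log (T / v) ≤ Real.log v * σ * Real.log (T / v) :=
        mul_le_mul_of_nonneg_right (mul_le_mul hlv hσ1 (by norm_num) (by linarith)) hx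
      rw [hlT]
      nlinarith
    have h6 : (T : ℝ) ^ σ * (v : ℝ) ^ (1 - σ) = v * ((T : ℝ) / v) ^ σ := by
      rw [Real.div_rpow hT0.le hv0.le, Real.rpow_sub hv0, Real.rpow_one]
      field_simp
    rw [h6]
    calc (((Icc 1 v).filter Nat.Prime).card : ℝ) * Real.log T ≤
          (((Icc 1 v).filter Nat.Prime).card : ℝ) * (4 * (Real.log v * ((T : ℝ) / v) ^ σ)) :=
          mul_le_mul_of_nonneg_left h2 (Nat.cast_nonneg _)
      _ = 4 * ((((Icc 1 v).filter Nat.Prime).card : ℝ) * Real.log v) * ((T : ℝ) / v) ^ σ := by ring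
      _ ≤ 4 * (4 * v) * ((T : ℝ) / v) ^ σ :=
          mul_le_mul_of_nonneg_right (by linarith) (by positivity)
      _ = _ := by ring

/-- smooth numbers -/
theorem smooth_dec : ∃ C : ℝ, 0 < C ∧ ∀ v Y : ℕ, 2 ≤ v → 2 ≤ Y →
    ((Sm Y v).card : ℝ) ≤ C * (Y * Real.exp (-(Real.log Y / (6 * Real.log v)))) := by
  obtain ⟨C, hC, HE⟩ := Pool.Agent.H398R2.RK.euler_le
  set C1 : ℝ := C * Real.exp (4 / 3 * (1 + C / 0.69)) with hC1
  have hC1' : 0 < C1 := by positivity
  refine ⟨max 2 (20 * (2 * C1)), lt_max_of_lt_left (by norm_num), fun v Y hv hY => ?_⟩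
  have hvr : (2 : ℝ) ≤ v := by exact_mod_cast hv
  have hv0 : (0 : ℝ) < v := by linarith
  have hYr : (2 : ℝ) ≤ Y := by exact_mod_cast hY
  have hY0 : (0 : ℝ) < Y := by linarith
  have hlv : 0.69 ≤ Real.log v := by
    have := Real.log_two_gt_d9
    have h2 := Real.log_le_log (by norm_num) hvr
    linarith
  have hlY : 0 < Real.log Y := Real.log_pos (by linarith)
  have hlv0 : 0 < Real.log v := by linarith
  obtain ⟨η, hη⟩ : ∃ η : ℝ, η = 1 / (6 * Real.log v) := ⟨_, rfl⟩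
  have hη0 : 0 < η := by rw [hη]; positivity
  have hη4 : η ≤ 1 / 4 := by
    rw [hη]
    exact one_div_le_one_div_of_le (by norm_num) (by linarith)
  have hexp : (Y : ℝ) ^ (-η) = Real.exp (-(Real.log Y / (6 * Real.log v))) := by
    rw [Real.rpow_def_of_pos hY0, hη]
    congr 1
    ring
  rw [← hexp]
  have hvη : (v : ℝ) ^ η ≤ 2 := by
    rw [Real.rpow_def_of_pos hv0, hη]
    have e : Real.log v * (1 / (6 * Real.log v)) = 1 / 6 := by field_simp
    rw [e]
    have h1 : Real.exp (1 / 6) ≤ Real.exp (Real.log 2) := by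
      refine Real.exp_le_exp.2 ?_
      have := Real.log_two_gt_d9
      linarith
    rwa [Real.exp_log (by norm_num)] at h1
  rcases le_or_gt (Real.log Y) (Real.log v) with hu | hu
  · -- trivial bound
    have h1 : ((Sm Y v).card : ℝ) ≤ Y := by
      have h2 : (Sm Y v).card ≤ (Icc 1 Y).card := card_le_card (by
        classical
        unfold Sm; exact filter_subset _ _)
      rw [Nat.card_Icc, Nat.add_sub_cancel] at h2
      exact_mod_cast h2
    have h2 : (1 / 2 : ℝ) ≤ (Y : ℝ) ^ (-η) := by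
      have h3 : (Y : ℝ) ^ η ≤ 2 := by
        refine le_trans (Real.rpow_le_rpow hY0.le ?_ hη0.le) hvη
        exact (Real.log_le_log_iff hY0 hv0).1 hu
      rw [Real.rpow_neg hY0.le, ← one_div]
      exact one_div_le_one_div_of_le (by positivity) h3
    have h3 : 2 * (Y * (1 / 2)) ≤ max 2 (20 * (2 * C1)) * (Y * (Y : ℝ) ^ (-η)) := by
      refine mul_le_mul (le_max_left _ _) (mul_le_mul_of_nonneg_left h2 hY0.le) (by positivity) (by positivity)
    linarith
  -- the Euler product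
  have hE := HE η v hη0.le hη4 hv
  have hts := Pool.Agent.H398R2.RK.smooth_tsum (σ := 1 - η) (by linarith) v Y
  have hS : ∑ n ∈ Sm Y v, (n : ℝ) ^ (-(1 - η)) ≤ C1 * Real.log v := by
    refine le_trans (le_of_eq ?_) (hts.trans (hE.trans ?_))
    · unfold Sm
      refine sum_congr ?_ fun _ _ => rfl
      congr
    have h2 : 4 * η * (v : ℝ) ^ η * (Real.log v + C) ≤ 4 / 3 * (1 + C / 0.69) := by
      have h3 : 4 * η * (v : ℝ) ^ η ≤ 4 * η * 2 := mul_le_mul_of_nonneg_left hvη (by positivity)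
      have h4 : 4 * η * (v : ℝ) ^ η * (Real.log v + C) ≤ 4 * η * 2 * (Real.log v + C) :=
        mul_le_mul_of_nonneg_right h3 (by linarith)
      refine h4.trans ?_
      have h5 : 4 * η * 2 * (Real.log v + C) = 4 / 3 * (1 + C / Real.log v) := by
        rw [hη]; field_simp; ring
      rw [h5]
      have h6 : C / Real.log v ≤ C / 0.69 := div_le_div_of_nonneg_left hC.le (by norm_num) hlv
      linarith
    have h3 := Real.exp_le_exp.2 h2
    calc C * Real.log v * Real.exp (4 * η * (v : ℝ) ^ η * (Real.log v + C)) ≤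
          C * Real.log v * Real.exp (4 / 3 * (1 + C / 0.69)) :=
          mul_le_mul_of_nonneg_left h3 (by positivity)
      _ = C1 * Real.log v := by rw [hC1]; ring
  -- the two sums
  have hsplit : ((Sm Y v).card : ℝ) * Real.log Y =
      ∑ n ∈ Sm Y v, Real.log (Y / n) + ∑ n ∈ Sm Y v, Real.log n := by
    rw [← sum_add_distrib, ← nsmul_eq_mul, ← sum_const]
    refine sum_congr rfl fun n hn => ?_
    have hn0 : (0 : ℝ) < n := by exact_mod_cast (mem_Sm.1 hn).1.1
    rw [Real.log_div hY0.ne' hn0.ne']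
    ring
  have hpow : ∀ n ∈ Sm Y v, ((Y : ℝ) / n) ^ (1 - η) = (Y : ℝ) ^ (1 - η) * (n : ℝ) ^ (-(1 - η)) := by
    intro n hn
    have hn0 : (0 : ℝ) < n := by exact_mod_cast (mem_Sm.1 hn).1.1
    rw [Real.div_rpow hY0.le hn0.le, Real.rpow_neg hn0.le, div_eq_mul_inv]
  have h1 : ∑ n ∈ Sm Y v, Real.log (Y / n) ≤ 2 * ((Y : ℝ) ^ (1 - η) * (C1 * Real.log v)) := by
    have h2 : ∀ n ∈ Sm Y v, Real.log (Y / n) ≤ 2 * ((Y : ℝ) ^ (1 - η) * (n : ℝ) ^ (-(1 - η))) := by
      intro n hn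
      have hn0 : (0 : ℝ) < n := by exact_mod_cast (mem_Sm.1 hn).1.1
      have h3 := Real.log_le_rpow_div (x := (Y : ℝ) / n) (by positivity) (by linarith : 0 < 1 - η)
      rw [hpow n hn] at h3
      refine h3.trans ?_
      rw [div_le_iff₀ (by linarith)]
      have h4 : 0 ≤ (Y : ℝ) ^ (1 - η) * (n : ℝ) ^ (-(1 - η)) := by positivity
      nlinarith
    refine (sum_le_sum h2).trans ?_
    rw [← mul_sum, ← mul_sum]
    exact mul_le_mul_of_nonneg_left (mul_le_mul_of_nonneg_left hS (by positivity)) (by norm_num)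
  have h2 : ∑ n ∈ Sm Y v, Real.log n ≤ 16 * ((Y : ℝ) ^ (1 - η) * 2 * (C1 * Real.log v)) := by
    refine (sum_log_le Y v).trans ?_
    have h3 : ∀ m ∈ Sm Y v, (((Icc 1 (min v (Y / m))).filter Nat.Prime).card : ℝ) *
        Real.log ((Y / m : ℕ) : ℝ) ≤ 16 * ((Y : ℝ) ^ (1 - η) * 2 * (m : ℝ) ^ (-(1 - η))) := by
      intro m hm
      obtain ⟨⟨g1, g2⟩, _⟩ := mem_Sm.1 hm
      have hm0 : (0 : ℝ) < m := by exact_mod_cast g1
      have hT : 1 ≤ Y / m := (Nat.one_le_div_iff (by omega)).2 g2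
      have h4 := weight_le (σ := 1 - η) hv hT (by linarith) (by linarith)
      refine h4.trans ?_
      have h5 : ((Y / m : ℕ) : ℝ) ^ (1 - η) ≤ (Y : ℝ) ^ (1 - η) * (m : ℝ) ^ (-(1 - η)) := by
        rw [← hpow m hm]
        exact Real.rpow_le_rpow (Nat.cast_nonneg _) Nat.cast_div_le (by linarith)
      have h6 : (v : ℝ) ^ (1 - (1 - η)) ≤ 2 := by
        have : 1 - (1 - η) = η := by ring
        rw [this]; exact hvη
      have h7 : ((Y / m : ℕ) : ℝ) ^ (1 - η) * (v : ℝ) ^ (1 - (1 - η)) ≤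
          (Y : ℝ) ^ (1 - η) * (m : ℝ) ^ (-(1 - η)) * 2 :=
        mul_le_mul h5 h6 (by positivity) (by positivity)
      linarith
    refine (sum_le_sum h3).trans ?_
    rw [← mul_sum, ← mul_sum]
    exact mul_le_mul_of_nonneg_left (mul_le_mul_of_nonneg_left hS (by positivity)) (by norm_num)
  have h3 : ((Sm Y v).card : ℝ) * Real.log Y ≤ 34 * C1 * (Y : ℝ) ^ (1 - η) * Real.log v := by
    rw [hsplit]
    linarith
  have h4 : ((Sm Y v).card : ℝ) ≤ 34 * C1 * (Y : ℝ) ^ (1 - η) := by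
    have h5 : 34 * C1 * (Y : ℝ) ^ (1 - η) * Real.log v ≤ 34 * C1 * (Y : ℝ) ^ (1 - η) * Real.log Y :=
      mul_le_mul_of_nonneg_left hu.le (by positivity)
    exact le_of_mul_le_mul_right (h3.trans h5) hlY
  refine h4.trans ?_
  have h5 : (Y : ℝ) ^ (1 - η) = Y * (Y : ℝ) ^ (-η) := by
    rw [sub_eq_add_neg, Real.rpow_add hY0, Real.rpow_one]
  rw [h5]
  have h6 : 34 * C1 ≤ max 2 (20 * (2 * C1)) := by
    refine le_trans ?_ (le_max_right _ _)
    linarith
  exact mul_le_mul_of_nonneg_right h6 (by positivity)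

end Pool.Agent.R529
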