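import Pool.Agent.R529.Rows
import Pool.Agent.R529.Smooth
import Pool.Agent.Y835.SF.RU1

/-!
A residue class modulo the product of the primes up to `z` with few survivors in an interval.
-/

set_option autoImplicit false

namespace Pool.Agent.R529

open Finset
open Pool.Agent.H378R2 Pool.Agent.H510R2.Maier

open Classical in
/-- the class -/
theorem class_up : ∃ (C : ℝ) (Y1 : ℕ), 0 < C ∧ ∀ (X D : ℝ) (ps : ℕ) (S : Finset ℕ) (z z1 Y : ℕ) (E : ℝ),
    1000 ≤ D → 1 ≤ X → z = ⌊Real.log X / D⌋₊ → Y1 ≤ z → z ≤ Y → 2 ≤ z1 → z1 ≤ z →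
    ∑ t ∈ (insert ps S).filter (fun t => z1 < t), (1 : ℝ) / t ≤ E →
    ∃ r : ℕ, (VV (WD X D S ps) r Y : ℝ) / BE (PD X D S ps) ≤ C * (Real.log z / Real.log z1) *
      (Y * ((1 + Real.log ((Y : ℝ) / z)) / Real.log z + Real.exp (-(Real.log Y / (6 * Real.log z1))) + E)) := by
  obtain ⟨Cm, Y1, hCm, hY1, HM⟩ := Pool.Agent.Y835.SU.medium_count
  obtain ⟨Cs, hCs, HS⟩ := smooth_dec
  obtain ⟨cR, hcR, -, HR⟩ := Pool.Agent.Y835.SC.V_ratio
  refine ⟨1 / cR * (Cm + Cs + 1), Y1, by positivity, ?_⟩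
  intro X D ps S z z1 Y E hD hX hz hY1z hzY hz1 hz1z hE
  have hz3 : 3 ≤ z := hY1.trans hY1z
  have hzr : (3 : ℝ) ≤ z := by exact_mod_cast hz3
  have hz1r : (2 : ℝ) ≤ z1 := by exact_mod_cast hz1
  have hYr : (z : ℝ) ≤ Y := by exact_mod_cast hzY
  have hY0 : (0 : ℝ) < Y := by linarith
  have hlz : 0 < Real.log z := Real.log_pos (by linarith)
  have hlz1 : 0 < Real.log z1 := Real.log_pos (by linarith)
  have hmem : ∀ p, p ∈ PD X D S ps ↔ p ≤ z ∧ p.Prime ∧ p ∉ S ∧ p ≠ ps := by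
    intro p
    rw [hz]
    exact mem_PD hD hX
  obtain ⟨R0, hR0⟩ : ∃ R0 : Finset ℕ, R0 = (Icc 1 Y).filter
    (fun h => ∀ p : ℕ, p.Prime → z1 < p → p ≤ z → p ∉ insert ps S → ¬ p ∣ h) := ⟨_, rfl⟩
  have hmed := HM z z1 Y hY1z hzY hz1 hz1z (insert ps S)
  rw [← hR0] at hmed
  -- the greedy step
  obtain ⟨P1, hP1⟩ : ∃ P1 : Finset ℕ, P1 = (PD X D S ps).filter (fun p => p ≤ z1) := ⟨_, rfl⟩
  obtain ⟨b, hb1, hb2⟩ := Pool.Agent.H398R2.RK.greedy_all P1 (fun p hp => by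
    rw [hP1, mem_filter] at hp
    exact ((hmem p).1 hp.1).2.1) R0
  -- the class
  have hcop : Set.Pairwise (PD X D S ps : Set ℕ) (Function.onFun Nat.Coprime (fun p : ℕ => p)) := by
    intro p hp q hq hne
    exact (Nat.coprime_primes ((hmem p).1 hp).2.1 ((hmem q).1 hq).2.1).2 hne
  obtain ⟨r, hr⟩ := Nat.chineseRemainderOfFinset (fun p => if p ≤ z1 then p - b p else 0)
    (fun p : ℕ => p) (PD X D S ps) (fun p hp => ((hmem p).1 hp).2.1.ne_zero) hcop
  refine ⟨r, ?_⟩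
  have hsub : (Icc 1 Y).filter (fun h => (r + h).Coprime (WD X D S ps)) ⊆
      R0.filter (fun k => ∀ p ∈ P1, ¬ k ≡ b p [MOD p]) := by
    intro h hh
    rw [mem_filter] at hh
    have hnd : ∀ p ∈ PD X D S ps, ¬ p ∣ r + h := by
      intro p hp hd
      have hpp := ((hmem p).1 hp).2.1
      have h1 : p ∣ WD X D S ps := dvd_prod_of_mem (fun p => p) hp
      exact hpp.one_lt.ne' (Nat.dvd_one.1 (hh.2 ▸ Nat.dvd_gcd hd h1))
    rw [mem_filter, hR0, mem_filter]
    refine ⟨⟨hh.1, fun p hp h1 h2 h3 hd => ?_⟩, fun p hp hc => ?_⟩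
    · rw [mem_insert, not_or] at h3
      have hpD : p ∈ PD X D S ps := (hmem p).2 ⟨h2, hp, h3.2, h3.1⟩
      have h4 := hr p hpD
      rw [if_neg (by omega)] at h4
      exact hnd p hpD (dvd_add ((Nat.modEq_zero_iff_dvd).1 h4) hd)
    · have hpD : p ∈ PD X D S ps := by rw [hP1] at hp; exact (mem_filter.1 hp).1
      have hpz : p ≤ z1 := by rw [hP1] at hp; exact (mem_filter.1 hp).2
      have h4 := hr p hpD
      rw [if_pos hpz] at h4
      refine hnd p hpD ?_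
      have h5 : r + h ≡ p - b p + b p [MOD p] := h4.add hc
      rw [Nat.sub_add_cancel (hb1 p hp).le] at h5
      exact (Nat.modEq_zero_iff_dvd).1 (h5.trans (by simp [Nat.ModEq]))
  have hV1 : (VV (WD X D S ps) r Y : ℝ) ≤ R0.card * ∏ p ∈ P1, (1 - 1 / (p : ℝ)) := by
    refine le_trans ?_ hb2
    unfold VV
    exact_mod_cast card_le_card hsub
  -- the products
  have hPp : ∀ p ∈ PD X D S ps, p.Prime := fun p hp => PD_prime hp
  have hB0 : 0 < BE (PD X D S ps) := BE_pos hPp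
  have hBE : BE (PD X D S ps) = (∏ p ∈ P1, (1 - 1 / (p : ℝ))) *
      ∏ p ∈ (PD X D S ps).filter (fun p => ¬ p ≤ z1), (1 - 1 / (p : ℝ)) := by
    unfold BE
    rw [hP1]
    exact (prod_filter_mul_prod_filter_not _ _ _).symm
  have hP10 : 0 < ∏ p ∈ P1, (1 - 1 / (p : ℝ)) := by
    refine BE_pos (E := P1) fun p hp => ?_
    rw [hP1] at hp
    exact hPp p (mem_filter.1 hp).1
  have hQ := HR z1 z hz1 hz1z ((PD X D S ps).filter (fun p => ¬ p ≤ z1)) (fun p hp => by
    rw [mem_filter] at hp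
    exact ⟨hPp p hp.1, by omega, ((hmem p).1 hp.1).1⟩)
  have hQ' : cR * (Real.log z1 / Real.log z) ≤
      ∏ p ∈ (PD X D S ps).filter (fun p => ¬ p ≤ z1), (1 - 1 / (p : ℝ)) := hQ
  have h1 : (VV (WD X D S ps) r Y : ℝ) / BE (PD X D S ps) ≤
      1 / cR * (Real.log z / Real.log z1) * R0.card := by
    rw [div_le_iff₀ hB0, hBE]
    refine hV1.trans ?_
    have h2 : 1 ≤ 1 / cR * (Real.log z / Real.log z1) *
        ∏ p ∈ (PD X D S ps).filter (fun p => ¬ p ≤ z1), (1 - 1 / (p : ℝ)) := by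
      refine le_trans (le_of_eq ?_) (mul_le_mul_of_nonneg_left hQ' (by positivity))
      field_simp
    have h3 := mul_le_mul_of_nonneg_left h2 (by positivity : 0 ≤ (R0.card : ℝ) * ∏ p ∈ P1, (1 - 1 / (p : ℝ)))
    refine le_trans (le_of_eq (by ring)) (h3.trans (le_of_eq (by ring)))
  refine h1.trans ?_
  have h2 : (R0.card : ℝ) ≤ (Cm + Cs + 1) *
      (Y * ((1 + Real.log ((Y : ℝ) / z)) / Real.log z + Real.exp (-(Real.log Y / (6 * Real.log z1))) + E)) := by
    refine hmed.trans ?_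
    have hlq : 0 ≤ Real.log ((Y : ℝ) / z) := by
      apply Real.log_nonneg
      rw [le_div_iff₀ (by linarith), one_mul]
      exact hYr
    have g1 : Cm * (Y / Real.log z) * min (1 + Real.log ((Y : ℝ) / z)) (Real.log z1) ≤
        Cm * (Y * ((1 + Real.log ((Y : ℝ) / z)) / Real.log z)) := by
      have h3 := mul_le_mul_of_nonneg_left (min_le_left (1 + Real.log ((Y : ℝ) / z)) (Real.log z1))
        (by positivity : 0 ≤ Cm * (Y / Real.log z))
      refine h3.trans (le_of_eq ?_)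
      ring
    have g2 : (((Icc 1 Y).filter (fun h => ∀ p : ℕ, p.Prime → p ∣ h → p ≤ z1)).card : ℝ) ≤
        Cs * (Y * Real.exp (-(Real.log Y / (6 * Real.log z1)))) := by
      refine le_trans (le_of_eq ?_) (HS z1 Y hz1 (by omega))
      unfold Sm
      congr
    have g3 : ∑ t ∈ (insert ps S).filter (fun t => z1 < t), (Y : ℝ) / t ≤ Y * E := by
      have h3 : ∑ t ∈ (insert ps S).filter (fun t => z1 < t), (Y : ℝ) / t =
          Y * ∑ t ∈ (insert ps S).filter (fun t => z1 < t), (1 : ℝ) / t := by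
        rw [mul_sum]
        exact sum_congr rfl fun t _ => by ring
      rw [h3]
      exact mul_le_mul_of_nonneg_left hE hY0.le
    have hE0 : 0 ≤ E := le_trans (sum_nonneg fun t _ => by positivity) hE
    have g4 : 0 ≤ (1 + Real.log ((Y : ℝ) / z)) / Real.log z := by positivity
    have g5 : 0 ≤ Real.exp (-(Real.log Y / (6 * Real.log z1))) := (Real.exp_pos _).le
    generalize Real.exp (-(Real.log Y / (6 * Real.log z1))) = e1 at g2 g5 ⊢
    generalize (1 + Real.log ((Y : ℝ) / z)) / Real.log z = e2 at g1 g4 ⊢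
    have k1 : 0 ≤ Y * e1 := by positivity
    have k2 : 0 ≤ Y * e2 := by positivity
    have k3 : 0 ≤ Y * E := by positivity
    have k4 : (Cm + Cs + 1) * (Y * (e2 + e1 + E)) = Cm * (Y * e2) + Cs * (Y * e1) + Y * E +
      (Cm * (Y * e1) + Cm * (Y * E) + Cs * (Y * e2) + Cs * (Y * E) + Y * e2 + Y * e1) := by ring
    have k5 : 0 ≤ Cm * (Y * e1) + Cm * (Y * E) + Cs * (Y * e2) + Cs * (Y * E) + Y * e2 + Y * e1 := by
      positivity
    linarith
  have h3 := mul_le_mul_of_nonneg_left h2 (by positivity : 0 ≤ 1 / cR * (Real.log z / Real.log z1))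
  refine h3.trans (le_of_eq ?_)
  ring

end Pool.Agent.R529
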