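import Pool.Agent.Y835.SB.Fin

/-!
The barrier theorem for squared sieve weights (after `Pool.Agent.Y835.SB.core`), where the level
counts the large primes only.
-/

set_option autoImplicit false

namespace Pool.Agent.R529

open Finset Pool.Agent.Y835.SB

open Classical in
/-- the main inequality with all parameters -/
theorem core' {cM : ℝ} (hcM : 0 < cM) (HM : ∀ z : ℕ, 2 ≤ z → ∀ P : Finset ℕ,
      (∀ p ∈ P, p.Prime ∧ p ≤ z) → cM / Real.log z ≤ ∏ p ∈ P, (1 - 1 / (p : ℝ)))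
    {W R Λ σ η : ℝ} (hη0 : 0 < η) (hη1 : η ≤ 1) (hW : 1 ≤ W) (hΛ : 1 ≤ Λ) {y : ℕ} {P : Finset ℕ}
    (hP : ∀ p ∈ P, p.Prime)
    (hΛP : ∑ p ∈ (P.filter (fun p : ℕ => W < (p : ℝ))).filter (fun p : ℕ => (p : ℝ) ≤ R),
      1 / (p : ℝ) ≤ Λ)
    (hσ : ∀ n : ℕ, σ ≤ (((Icc 1 y).filter (fun h => ∀ p ∈ P.filter (fun p : ℕ => (p : ℝ) ≤ W),
      ¬ p ∣ n + h)).card : ℝ))
    (hmain : 5 * Λ / η * (1 / cM) * (y / W + 1) * Real.log R ≤ η * σ)
    {ι : Type} (I : Finset ι) (d : ι → ℕ) (f : ι → ℕ → ℝ)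
    (hf : ∀ i ∈ I, 0 < d i ∧
      ((∏ p ∈ (d i).primeFactors.filter (fun p : ℕ => W < (p : ℝ)), p : ℕ) : ℝ) ≤ R ∧
      Function.Periodic (f i) (d i)) {N : ℕ} (hN : 0 < N)
    (hPN : ∀ p ∈ P, p ∣ N) (hIN : ∀ i ∈ I, d i ∣ N) :
    (1 - 2 * η) * σ * (∏ p ∈ P.filter (fun p : ℕ => W < (p : ℝ)), (1 - 1 / (p : ℝ))) *
      ∑ n ∈ range N, (∑ i ∈ I, f i n) ^ 2 ≤
      ∑ n ∈ range N, (∑ i ∈ I, f i n) ^ 2 *
        (((Icc 1 y).filter (fun h => ∀ p ∈ P, ¬ p ∣ n + h)).card : ℝ) := by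
  set Q := P.filter (fun p : ℕ => W < (p : ℝ)) with hQ
  set S := P.filter (fun p : ℕ => (p : ℝ) ≤ W) with hS
  set M : ℕ → ℕ := fun p => N / p ^ N.factorization p with hM
  set K : ℕ → ℕ := fun p => p ^ N.factorization p with hK
  set V : ℕ → ℝ := ∑ i ∈ I, f i with hV
  have hVn : ∀ n, V n = ∑ i ∈ I, f i n := fun n => by rw [hV, Finset.sum_apply]
  have hQm : ∀ p ∈ Q, p.Prime ∧ p ∣ N := fun p hp =>
    ⟨hP p (mem_filter.1 hp).1, hPN p (mem_filter.1 hp).1⟩
  have hD : Dat N M K Q := dat_of hN hQm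
  have hfN : ∀ i ∈ I, Function.Periodic (f i) N := fun i hi => per_of_dvd (hf i hi).2.2 (hIN i hi)
  have hVN : Function.Periodic V N := by
    intro n
    rw [hVn, hVn]
    exact sum_congr rfl fun i hi => hfN i hi n
  have hfM : ∀ i ∈ I, ∀ p ∈ Q, ¬ p ∣ d i → Function.Periodic (f i) (M p) := fun i hi p hp hpd =>
    per_of_dvd (hf i hi).2.2 (dvd_compl (hQm p hp).1 (hIN i hi) hpd)
  have hVM : ∀ p ∈ Q, R < (p : ℝ) → Function.Periodic V (M p) := by
    intro p hp hpR n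
    rw [hVn, hVn]
    refine sum_congr rfl fun i hi => hfM i hi p hp (fun hpd => ?_) n
    have h1 : p ∈ (d i).primeFactors.filter (fun p : ℕ => W < (p : ℝ)) :=
      mem_filter.2 ⟨Nat.mem_primeFactors.2 ⟨(hQm p hp).1, hpd, (hf i hi).1.ne'⟩, (mem_filter.1 hp).2⟩
    have h0 : 0 < ∏ p ∈ (d i).primeFactors.filter (fun p : ℕ => W < (p : ℝ)), p :=
      prod_pos fun q hq => (Nat.prime_of_mem_primeFactors (mem_filter.1 hq).1).pos
    have h2 : (p : ℝ) ≤ ((∏ p ∈ (d i).primeFactors.filter (fun p : ℕ => W < (p : ℝ)), p : ℕ) : ℝ) := by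
      exact_mod_cast Nat.le_of_dvd h0 (dvd_prod_of_mem (fun p => p) h1)
    linarith [(hf i hi).2.1]
  -- level inequality
  have hlev : ∑ p ∈ Q, Real.log p * SS N (V - Av (M p) (K p) V) ≤ Real.log R * SS N V := by
    refine anova N M K (fun i => (d i).primeFactors) Q (fun p hp =>
      ⟨hD.mul p hp, hD.Kpos hp, (hQm p hp).1.pos⟩) I f R fun i hi => ⟨hfN i hi, ?_, ?_⟩
    · intro p hp hpd
      refine hfM i hi p hp fun h1 => hpd ?_
      exact Nat.mem_primeFactors.2 ⟨(hQm p hp).1, h1, (hf i hi).1.ne'⟩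
    · have h0 : 0 < ∏ p ∈ (d i).primeFactors.filter (fun p : ℕ => W < (p : ℝ)), p :=
        prod_pos fun q hq => (Nat.prime_of_mem_primeFactors (mem_filter.1 hq).1).pos
      have h1 : ∏ p ∈ Q.filter (fun p => p ∈ (d i).primeFactors), p ∣
          ∏ p ∈ (d i).primeFactors.filter (fun p : ℕ => W < (p : ℝ)), p := by
        refine prod_dvd_prod_of_subset _ _ _ fun p hp => mem_filter.2 ⟨(mem_filter.1 hp).2, ?_⟩
        exact (mem_filter.1 (mem_filter.1 hp).1).2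
      have h3 := Nat.le_of_dvd h0 h1
      have h4 : ((∏ p ∈ Q.filter (fun p => p ∈ (d i).primeFactors), p : ℕ) : ℝ) ≤
          ((∏ p ∈ (d i).primeFactors.filter (fun p : ℕ => W < (p : ℝ)), p : ℕ) : ℝ) := by
        exact_mod_cast h3
      rw [Nat.cast_prod] at h4
      exact h4.trans (hf i hi).2.1
  -- the recursion for every site
  set τ : ℝ := η / Λ with hτ
  have hτ0 : 0 < τ := by positivity
  have hτ1 : τ ≤ 1 := by
    rw [hτ, div_le_one (by positivity)]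
    linarith
  have hτΛ : τ * Λ = η := by rw [hτ]; field_simp
  set L : ℕ → ℝ := fun p => 1 / cM * Real.log p with hL
  have hL0 : ∀ p, 0 ≤ L p := fun p => mul_nonneg (by positivity) (Real.log_natCast_nonneg p)
  set s : ℕ → ℕ → ℝ := fun h n => if ∀ p ∈ S, ¬ p ∣ n + h then 1 else 0 with hs
  have hs0 : ∀ h n, 0 ≤ s h n := fun h n => by simp only [hs]; split_ifs <;> norm_num
  have hs1 : ∀ h n, s h n ≤ 1 := fun h n => by simp only [hs]; split_ifs <;> norm_num
  have hsM : ∀ h, ∀ p ∈ Q, Function.Periodic (s h) (M p) := by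
    intro h p hp n
    simp only [hs]
    refine if_congr ?_ rfl rfl
    refine forall₂_congr fun q hq => not_congr ?_
    have hq1 := mem_filter.1 hq
    have h1 : q ∣ M p := by
      have h2 : q ≠ p := by
        rintro rfl
        have := (mem_filter.1 hp).2
        linarith [hq1.2]
      refine dvd_compl (hQm p hp).1 (hPN q hq1.1) fun h3 => h2 ?_
      exact ((Nat.prime_dvd_prime_iff_eq (hQm p hp).1 (hP q hq1.1)).1 h3).symm
    have e : n + M p + h = n + h + M p := by ring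
    rw [e]
    exact (Nat.dvd_add_iff_left h1).symm
  have hLp : ∀ p ∈ Q, 1 ≤ (∏ q ∈ Q.filter (fun q => q < p), (1 - 1 / (q : ℝ))) * L p := by
    intro p hp
    have hpp := (hQm p hp).1
    have h1 := HM p hpp.two_le (Q.filter (fun q => q < p)) fun q hq =>
      ⟨(hQm q (mem_filter.1 hq).1).1, (mem_filter.1 hq).2.le⟩
    have hlp : 0 < Real.log p := Real.log_pos (by exact_mod_cast hpp.one_lt)
    have h2 := mul_le_mul_of_nonneg_right h1 (hL0 p)
    refine le_trans (le_of_eq ?_) h2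
    simp only [hL]
    field_simp
  set δ : ℝ := ∏ p ∈ Q, (1 - 1 / (p : ℝ)) with hδ
  have hδ0 : 0 ≤ δ := prod_nonneg fun p hp => by
    have : (2 : ℝ) ≤ p := by exact_mod_cast (hQm p hp).1.two_le
    rw [sub_nonneg, div_le_one (by linarith)]; linarith
  set A : ℝ := ∑ p ∈ Q.filter (fun p : ℕ => (p : ℝ) ≤ R), τ / p with hA
  have hA2 : A ≤ η := by
    have e : A = τ * ∑ p ∈ Q.filter (fun p : ℕ => (p : ℝ) ≤ R), 1 / (p : ℝ) := by
      rw [hA, mul_sum]
      exact sum_congr rfl fun p _ => by ring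
    rw [e, ← hτΛ]
    exact mul_le_mul_of_nonneg_left hΛP hτ0.le
  have hsite : ∀ h ∈ Icc 1 y, δ * ((1 - A) * XX N V (s h) h ∅ -
      (1 + 4 / τ) * ∑ p ∈ Q.filter (fun p : ℕ => (p : ℝ) ≤ R), L p * yy N M K V h p) ≤
      XX N V (s h) h Q := fun h _ =>
    site hVN (hs0 h) (hs1 h) h hτ0 hτ1 L hL0 R Q hD (hsM h) hLp hVM
  have hsum := sum_le_sum hsite
  rw [← mul_sum, sum_sub_distrib, ← mul_sum, ← mul_sum] at hsum
  -- the right side
  have hright : ∑ h ∈ Icc 1 y, XX N V (s h) h Q = ∑ n ∈ range N, (∑ i ∈ I, f i n) ^ 2 *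
        (((Icc 1 y).filter (fun h => ∀ p ∈ P, ¬ p ∣ n + h)).card : ℝ) := by
    unfold XX
    rw [sum_comm]
    refine sum_congr rfl fun n _ => ?_
    rw [← mul_sum, hVn]
    congr 1
    have h1 : ∀ h ∈ Icc 1 y, (s h n * if ∀ p ∈ Q, ¬ p ∣ n + h then (1 : ℝ) else 0) =
        if ∀ p ∈ P, ¬ p ∣ n + h then (1 : ℝ) else 0 := by
      intro h _
      simp only [hs]
      by_cases h2 : ∀ p ∈ P, ¬ p ∣ n + h
      · rw [if_pos h2, if_pos fun p hp => h2 p (mem_filter.1 hp).1,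
          if_pos fun p hp => h2 p (mem_filter.1 hp).1, mul_one]
      · rw [if_neg h2]
        by_cases h3 : ∀ p ∈ S, ¬ p ∣ n + h
        · have h4 : ¬ ∀ p ∈ Q, ¬ p ∣ n + h := by
            intro h5
            apply h2
            intro p hp
            rcases le_or_gt (p : ℝ) W with h6 | h6
            · exact h3 p (mem_filter.2 ⟨hp, h6⟩)
            · exact h5 p (mem_filter.2 ⟨hp, h6⟩)
          rw [if_neg h4, mul_zero]
        · rw [if_neg h3, zero_mul]
    rw [sum_congr rfl h1, sum_boole]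
  -- the main term
  have hSS : SS N V = ∑ n ∈ range N, (∑ i ∈ I, f i n) ^ 2 := by
    unfold SS
    exact sum_congr rfl fun n _ => by rw [hVn]
  have hleft : σ * SS N V ≤ ∑ h ∈ Icc 1 y, XX N V (s h) h ∅ := by
    unfold XX
    rw [sum_comm]
    unfold SS
    rw [mul_sum]
    refine sum_le_sum fun n _ => ?_
    rw [← mul_sum, mul_comm]
    refine mul_le_mul_of_nonneg_left ?_ (sq_nonneg _)
    have h1 : ∀ h ∈ Icc 1 y, (s h n * if ∀ p ∈ (∅ : Finset ℕ), ¬ p ∣ n + h then (1 : ℝ) else 0) =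
        if ∀ p ∈ S, ¬ p ∣ n + h then (1 : ℝ) else 0 := by
      intro h _
      rw [if_pos (fun p hp => absurd hp (notMem_empty p)), mul_one]
    rw [sum_congr rfl h1, sum_boole]
    exact hσ n
  -- the error term
  have herr : ∑ h ∈ Icc 1 y, ∑ p ∈ Q.filter (fun p : ℕ => (p : ℝ) ≤ R), L p * yy N M K V h p ≤
      1 / cM * (y / W + 1) * Real.log R * SS N V := by
    rw [sum_comm]
    have h1 : ∀ p ∈ Q.filter (fun p : ℕ => (p : ℝ) ≤ R), ∑ h ∈ Icc 1 y, L p * yy N M K V h p ≤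
        1 / cM * (y / W + 1) * (Real.log p * SS N (V - Av (M p) (K p) V)) := by
      intro p hp
      have hpQ := (mem_filter.1 hp).1
      have hWp : W < (p : ℝ) := (mem_filter.1 hpQ).2
      have hp0 : 0 < p := (hQm p hpQ).1.pos
      rw [← mul_sum]
      have h2 : ∑ h ∈ Icc 1 y, yy N M K V h p ≤ (y / W + 1) * SS N (V - Av (M p) (K p) V) := by
        unfold yy SS
        rw [sum_comm, mul_sum]
        refine sum_le_sum fun n _ => ?_
        have h3 : ∑ h ∈ Icc 1 y, (if p ∣ n + h then (V n - Av (M p) (K p) V n) ^ 2 else 0) =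
            (((Icc 1 y).filter (fun h => p ∣ n + h)).card : ℝ) * (V n - Av (M p) (K p) V n) ^ 2 := by
          rw [← sum_filter, sum_const, nsmul_eq_mul]
        rw [h3, Pi.sub_apply]
        refine mul_le_mul_of_nonneg_right ?_ (sq_nonneg _)
        refine (hits_le p n y hp0).trans ?_
        have h4 : (y : ℝ) / p ≤ y / W :=
          div_le_div_of_nonneg_left (Nat.cast_nonneg y) (by linarith) hWp.le
        linarith
      have h5 := mul_le_mul_of_nonneg_left h2 (hL0 p)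
      refine h5.trans (le_of_eq ?_)
      simp only [hL]
      ring
    refine (sum_le_sum h1).trans ?_
    rw [← mul_sum]
    have h2 : ∑ p ∈ Q.filter (fun p : ℕ => (p : ℝ) ≤ R),
        Real.log p * SS N (V - Av (M p) (K p) V) ≤ Real.log R * SS N V := by
      refine le_trans (sum_le_sum_of_subset_of_nonneg (filter_subset _ _) fun p _ _ => ?_) hlev
      exact mul_nonneg (Real.log_natCast_nonneg p) (SS_nonneg _ _)
    have h3 : 0 ≤ 1 / cM * ((y : ℝ) / W + 1) := by positivity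
    have h4 := mul_le_mul_of_nonneg_left h2 h3
    linarith
  -- conclusion
  rw [hright] at hsum
  refine le_trans ?_ hsum
  rw [← hSS]
  have hSS0 := SS_nonneg N V
  have hX0 : 0 ≤ ∑ h ∈ Icc 1 y, XX N V (s h) h ∅ :=
    sum_nonneg fun h _ => XX_nonneg N (hs0 h) h ∅
  have h4τ : 1 + 4 / τ ≤ 5 * Λ / η := by
    rw [hτ]
    have e : 4 / (η / Λ) = 4 * Λ / η := by
      field_simp
    have h1 : 1 ≤ Λ / η := by
      rw [le_div_iff₀ hη0]
      linarith
    have e2 : 5 * Λ / η = Λ / η + 4 * Λ / η := by ring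
    rw [e, e2]
    linarith
  have hE0 : 0 ≤ ∑ h ∈ Icc 1 y, ∑ p ∈ Q.filter (fun p : ℕ => (p : ℝ) ≤ R), L p * yy N M K V h p :=
    sum_nonneg fun h _ => sum_nonneg fun p _ => mul_nonneg (hL0 p) (yy_nonneg _ _ _ _ _ _)
  have h1 : (1 + 4 / τ) * ∑ h ∈ Icc 1 y, ∑ p ∈ Q.filter (fun p : ℕ => (p : ℝ) ≤ R),
      L p * yy N M K V h p ≤ η * σ * SS N V := by
    have h2 := mul_le_mul_of_nonneg_right h4τ hE0
    have h3 := mul_le_mul_of_nonneg_left herr (by positivity : 0 ≤ 5 * Λ / η)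
    have h5 := mul_le_mul_of_nonneg_right hmain hSS0
    linarith
  have h2 : (1 - η) * (σ * SS N V) ≤ (1 - A) * ∑ h ∈ Icc 1 y, XX N V (s h) h ∅ := by
    have h3 : (1 - η) * ∑ h ∈ Icc 1 y, XX N V (s h) h ∅ ≤
        (1 - A) * ∑ h ∈ Icc 1 y, XX N V (s h) h ∅ :=
      mul_le_mul_of_nonneg_right (by linarith) hX0
    have h4 := mul_le_mul_of_nonneg_left hleft (sub_nonneg.2 hη1)
    linarith
  have h3 : (1 - 2 * η) * σ * SS N V ≤ (1 - A) * ∑ h ∈ Icc 1 y, XX N V (s h) h ∅ - (1 + 4 / τ) *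
      ∑ h ∈ Icc 1 y, ∑ p ∈ Q.filter (fun p : ℕ => (p : ℝ) ≤ R), L p * yy N M K V h p := by
    linarith
  have h4 := mul_le_mul_of_nonneg_left h3 hδ0
  linarith

end Pool.Agent.R529
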