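import Pool.Agent.R529.ClsF

/-!
The frequency of intervals `(n, n + λ log n]` without primes.
-/

set_option autoImplicit false

namespace Pool.Agent.R529

open Finset Filter Topology
open Pool.Agent.H378R2 Pool.Agent.H510R2.Maier

/-- all the conditions on `L = log X` -/
theorem evF (a s lam cM : ℝ) (Y1 : ℕ) (ha : 1 / 2 ≤ a) (ha1 : a < 1) (hs : 1 ≤ s) (hlam : 2 ≤ lam)
    (hcM : 0 < cM) : ∀ᶠ L : ℝ in atTop, 1 < L ∧ 2 ≤ Real.log L ∧ 1000 ≤ L ^ (1 - a) ∧
      (Y1 : ℝ) + 2 ≤ L ^ a ∧ 4 ≤ L ^ (a / s) ∧ Real.log 2 ≤ a / (2 * s) * Real.log L ∧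
      (1 + Real.log (6 * lam)) * 4 / Real.log L ≤ (1 - a) ∧ 7 / Real.log L ^ 2 ≤ (1 - a) ∧
      Real.log L ^ 2 ≤ L ^ (a / s) / 2 ∧ 80 / cM * Real.log L ≤ L / 16 ∧ 3 * lam * L ≤ L ^ 3 := by
  have ha0 : 0 < a := by linarith
  have hs0 : 0 < s := by linarith
  have hl : Tendsto Real.log atTop atTop := Real.tendsto_log_atTop
  have t1 := (tendsto_rpow_atTop (by linarith : 0 < 1 - a)).eventually_ge_atTop (1000 : ℝ)
  have t2 := (tendsto_rpow_atTop ha0).eventually_ge_atTop ((Y1 : ℝ) + 2)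
  have t3 := (tendsto_rpow_atTop (by positivity : 0 < a / s)).eventually_ge_atTop (4 : ℝ)
  have t4 := hl.eventually_ge_atTop (Real.log 2 / (a / (2 * s)))
  have t5 := hl.eventually_ge_atTop ((1 + Real.log (6 * lam)) * 4 / (1 - a))
  have t6 := hl.eventually_ge_atTop (max 2 (7 / (1 - a)))
  have t7 := (isLittleO_log_rpow_atTop (by positivity : 0 < a / s / 2)).def (show (0 : ℝ) < 1 / 2 by norm_num)
  have t8 := (Real.isLittleO_log_id_atTop).def (show (0 : ℝ) < cM / 1280 by positivity)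
  filter_upwards [t1, t2, t3, t4, t5, t6, t7, t8, eventually_ge_atTop (3 * lam + 1)] with L a1 a2 a3 a4 a5 a6 a7 a8 a9
  have hL1 : 1 < L := by linarith
  have hL0 : 0 < L := by linarith
  have hl2 : 2 ≤ Real.log L := (le_max_left _ _).trans a6
  have hl0 : 0 < Real.log L := by linarith
  refine ⟨hL1, hl2, a1, a2, a3, ?_, ?_, ?_, ?_, ?_, ?_⟩
  · rw [div_le_iff₀ (by positivity)] at a4
    linarith
  · rw [div_le_iff₀ (by linarith)] at a5
    rw [div_le_iff₀ hl0]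
    linarith
  · have h1 := (le_max_right 2 (7 / (1 - a))).trans a6
    rw [div_le_iff₀ (by linarith)] at h1
    rw [div_le_iff₀ (by positivity)]
    have h2 : Real.log L * (1 - a) ≤ (1 - a) * Real.log L ^ 2 := by
      rw [mul_comm]
      refine mul_le_mul_of_nonneg_left ?_ (by linarith)
      nlinarith only [hl2]
    linarith
  · rw [Real.norm_of_nonneg hl0.le, Real.norm_of_nonneg (by positivity)] at a7
    have h1 : L ^ (a / s) = L ^ (a / s / 2) * L ^ (a / s / 2) := by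
      rw [← Real.rpow_add hL0]
      congr 1
      ring
    rw [h1]
    have h2 : 0 < L ^ (a / s / 2) := by positivity
    nlinarith only [a7, h2, hl0]
  · rw [Real.norm_of_nonneg hl0.le, id, Real.norm_of_nonneg hL0.le] at a8
    have h1 : 80 / cM * Real.log L ≤ 80 / cM * (cM / 1280 * L) :=
      mul_le_mul_of_nonneg_left a8 (by positivity)
    refine h1.trans (le_of_eq ?_)
    field_simp
    norm_num
  · have h1 : 3 * lam ≤ L := by linarith
    have h2 : L ≤ L ^ 2 := by nlinarith only [hL1]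
    calc 3 * lam * L ≤ L ^ 2 * L := mul_le_mul_of_nonneg_right (h1.trans h2) hL0.le
      _ = L ^ 3 := by ring

/-- the final comparison -/
theorem evFin (a a' : ℝ) (ha' : 0 < a') (h : a' < a) : ∀ᶠ t : ℝ in atTop,
    Real.log 600 + 3 / 2 * t ^ a' ≤ t ^ a := by
  have t1 := (tendsto_rpow_atTop (by linarith : 0 < a - a')).eventually_ge_atTop (4 : ℝ)
  have t2 := (tendsto_rpow_atTop ha').eventually_ge_atTop (Real.log 600)
  filter_upwards [t1, t2, eventually_gt_atTop (0 : ℝ)] with t a1 a2 a3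
  have h1 : t ^ a = t ^ a' * t ^ (a - a') := by
    rw [← Real.rpow_add a3]
    congr 1
    ring
  rw [h1]
  have h2 : 0 < t ^ a' := by positivity
  nlinarith only [a1, a2, h2]

theorem log3_le : Real.log 3 ≤ 1.2 := by
  have h1 : Real.log 3 = Real.log 2 + Real.log (3 / 2) := by
    rw [← Real.log_mul (by norm_num) (by norm_num)]; norm_num
  have h2 := Real.log_le_sub_one_of_pos (show (0 : ℝ) < 3 / 2 by norm_num)
  have h3 := Real.log_two_lt_d9
  linarith

/-- the exceptional primes -/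
theorem exc_le {X ℓ : ℝ} {ps z1 : ℕ} {S : Finset ℕ} (hS : GoodS X S) (hℓ : ℓ = Real.log (Real.log X))
    (hℓ0 : 0 < ℓ) (hz : ℓ ^ 2 ≤ z1) :
    ∑ t ∈ (insert ps S).filter (fun t => z1 < t), (1 : ℝ) / t ≤ 7 / ℓ ^ 2 := by
  have h3 : ∑ t ∈ (insert ps S).filter (fun t => z1 < t), (1 : ℝ) / (t : ℝ) ≤
      ∑ t ∈ S, 1 / (t : ℝ) + ∑ t ∈ ({ps} : Finset ℕ).filter (fun t => z1 < t), 1 / (t : ℝ) := by
    have hsub : (insert ps S).filter (fun t => z1 < t) ⊆ S ∪ ({ps} : Finset ℕ).filter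
        (fun t => z1 < t) := by
      intro p hp
      rw [mem_filter, mem_insert] at hp
      rw [mem_union, mem_filter, mem_singleton]
      rcases hp.1 with h | h
      · exact Or.inr ⟨h, hp.2⟩
      · exact Or.inl h
    refine (sum_le_sum_of_subset_of_nonneg hsub fun _ _ _ => by positivity).trans ?_
    rw [← sum_union_inter]
    have : 0 ≤ ∑ p ∈ S ∩ ({ps} : Finset ℕ).filter (fun p => z1 < p), 1 / (p : ℝ) :=
      sum_nonneg fun _ _ => by positivity
    linarith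
  have hl2 : 0 < ℓ ^ 2 := by positivity
  have h4 : ∑ p ∈ ({ps} : Finset ℕ).filter (fun p => z1 < p), 1 / (p : ℝ) ≤ 1 / ℓ ^ 2 := by
    rw [filter_singleton]
    split_ifs with h4
    · rw [sum_singleton]
      refine one_div_le_one_div_of_le hl2 ?_
      have h5 : (z1 : ℝ) ≤ ps := by exact_mod_cast h4.le
      linarith
    · rw [sum_empty]
      positivity
  have h5 := hS.2
  rw [← hℓ] at h5
  have e1 : 7 / ℓ ^ 2 = 6 / ℓ ^ 2 + 1 / ℓ ^ 2 := by ring
  rw [e1]
  exact h3.trans (add_le_add h5 h4)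

/-- logarithms of the parameters -/
theorem logs {L ℓ a s : ℝ} {z z1 : ℕ} (hL : 1 < L) (hℓ : ℓ = Real.log L) (ha0 : 0 < a) (hs : 1 ≤ s)
    (h2 : Real.log 2 ≤ a / (2 * s) * ℓ) (hzu : (z : ℝ) ≤ L ^ a) (hzl : L ^ a / 2 ≤ z)
    (hz1u : (z1 : ℝ) ≤ L ^ (a / s)) (hz1l : L ^ (a / s) / 2 ≤ z1) (hz : (2 : ℝ) ≤ z) (hz1 : (2 : ℝ) ≤ z1) :
    Real.log z ≤ a * ℓ ∧ a / 2 * ℓ ≤ Real.log z ∧ Real.log z1 ≤ a / s * ℓ ∧
      a / (2 * s) * ℓ ≤ Real.log z1 := by
  have hL0 : 0 < L := by linarith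
  have hs0 : 0 < s := by linarith
  have hℓ0 : 0 < ℓ := by rw [hℓ]; exact Real.log_pos hL
  have hLas : 0 < L ^ (a / s) := by positivity
  have hLa0 : 0 < L ^ a := by positivity
  refine ⟨?_, ?_, ?_, ?_⟩
  · have h1 := Real.log_le_log (by linarith) hzu
    rwa [Real.log_rpow hL0, ← hℓ] at h1
  · have h3 := Real.log_le_log (by positivity) hzl
    rw [Real.log_div hLa0.ne' (by norm_num), Real.log_rpow hL0, ← hℓ] at h3
    have h4 : a / (2 * s) * ℓ ≤ a / 2 * ℓ := by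
      refine mul_le_mul_of_nonneg_right ?_ hℓ0.le
      exact div_le_div_of_nonneg_left ha0.le (by norm_num) (by linarith)
    linarith
  · have h1 := Real.log_le_log (by linarith) hz1u
    rwa [Real.log_rpow hL0, ← hℓ] at h1
  · have h3 := Real.log_le_log (by positivity) hz1l
    rw [Real.log_div hLas.ne' (by norm_num), Real.log_rpow hL0, ← hℓ] at h3
    have h4 : a / s * ℓ = 2 * (a / (2 * s) * ℓ) := by field_simp
    linarith

/-- the three factors -/
theorem factors {L ℓ a s lam : ℝ} {z z1 Y : ℕ} (hL : 1 < L) (hℓ : ℓ = Real.log L) (ha : 1 / 2 ≤ a)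
    (ha1 : a < 1) (hs : 1 ≤ s) (hlam : 0 < lam) (hz : (2 : ℝ) ≤ z) (hz1 : (2 : ℝ) ≤ z1)
    (k1 : Real.log z ≤ a * ℓ) (k2 : a / 2 * ℓ ≤ Real.log z) (k3 : Real.log z1 ≤ a / s * ℓ)
    (k4 : a / (2 * s) * ℓ ≤ Real.log z1) (hzl : L ^ a / 2 ≤ z) (hzY : z ≤ Y) (hYu : (Y : ℝ) ≤ 3 * lam * L)
    (hYl : L ≤ Y) (e7 : (1 + Real.log (6 * lam)) * 4 / ℓ ≤ 1 - a) :
    0 ≤ Real.log z / Real.log z1 ∧ Real.log z / Real.log z1 ≤ 2 * s ∧
      0 ≤ (1 + Real.log ((Y : ℝ) / z)) / Real.log z ∧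
      (1 + Real.log ((Y : ℝ) / z)) / Real.log z ≤ 5 * (1 - a) ∧
      Real.exp (-(Real.log Y / (6 * Real.log z1))) ≤ Real.exp (-(s / 6)) := by
  have hL0 : 0 < L := by linarith
  have hs0 : 0 < s := by linarith
  have ha0 : 0 < a := by linarith
  have hℓ0 : 0 < ℓ := by rw [hℓ]; exact Real.log_pos hL
  have hzr0 : (0 : ℝ) < z := by linarith
  have hlz10 : 0 < Real.log z1 := Real.log_pos (by linarith)
  have hlz0 : 0 < Real.log z := Real.log_pos (by linarith)
  have hYr : (0 : ℝ) < Y := by linarith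
  refine ⟨by positivity, ?_, ?_, ?_, ?_⟩
  · rw [div_le_iff₀ hlz10]
    calc Real.log z ≤ a * ℓ := k1
      _ = 2 * s * (a / (2 * s) * ℓ) := by field_simp
      _ ≤ 2 * s * Real.log z1 := mul_le_mul_of_nonneg_left k4 (by positivity)
  · have : 0 ≤ Real.log ((Y : ℝ) / z) := by
      apply Real.log_nonneg
      rw [le_div_iff₀ hzr0, one_mul]
      exact_mod_cast hzY
    positivity
  · have h1 : Real.log ((Y : ℝ) / z) ≤ Real.log (6 * lam) + (1 - a) * ℓ := by
      have h2 : (Y : ℝ) / z ≤ 6 * lam * L ^ (1 - a) := by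
        rw [div_le_iff₀ hzr0]
        have h4 : L ^ (1 - a) * L ^ a = L := by
          rw [← Real.rpow_add hL0]
          simp
        calc (Y : ℝ) ≤ 3 * lam * L := hYu
          _ = 6 * lam * L ^ (1 - a) * (L ^ a / 2) := by
              nth_rewrite 1 [← h4]
              ring
          _ ≤ 6 * lam * L ^ (1 - a) * z := mul_le_mul_of_nonneg_left hzl (by positivity)
      have h3 := Real.log_le_log (by positivity) h2
      rwa [Real.log_mul (by positivity) (by positivity), Real.log_rpow hL0, ← hℓ] at h3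
    rw [div_le_iff₀ hlz0]
    have h2 : ℓ / 4 ≤ Real.log z := by
      refine le_trans ?_ k2
      have : 1 / 4 * ℓ ≤ a / 2 * ℓ := mul_le_mul_of_nonneg_right (by linarith) hℓ0.le
      linarith
    have h3 : (1 + Real.log (6 * lam)) * 4 ≤ (1 - a) * ℓ := by
      rwa [div_le_iff₀ hℓ0] at e7
    have h4 : 5 * (1 - a) * (ℓ / 4) ≤ 5 * (1 - a) * Real.log z :=
      mul_le_mul_of_nonneg_left h2 (by linarith)
    have h5 : 5 * (1 - a) * (ℓ / 4) = (1 - a) * ℓ + (1 - a) * ℓ / 4 := by ring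
    linarith
  · refine Real.exp_le_exp.2 (neg_le_neg ?_)
    rw [le_div_iff₀ (by positivity)]
    have h1 : ℓ ≤ Real.log Y := by
      rw [hℓ]
      exact Real.log_le_log hL0 hYl
    calc s / 6 * (6 * Real.log z1) ≤ s / 6 * (6 * (a / s * ℓ)) :=
          mul_le_mul_of_nonneg_left (mul_le_mul_of_nonneg_left k3 (by norm_num)) (by positivity)
      _ = a * ℓ := by field_simp
      _ ≤ 1 * ℓ := mul_le_mul_of_nonneg_right ha1.le hℓ0.le
      _ ≤ Real.log Y := by rw [one_mul]; exact h1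

/-- the bound for the survivors -/
theorem survF {C0 C L s a lam ℓ Yr q1 q2 q3 : ℝ} (hC : 0 < C) (_hC0 : 0 < C0) (hC0C : C0 ≤ C) (hL0 : 0 < L)
    (hs0 : 0 < s) (hlam0 : 0 < lam) (h1a : 1 - a = 1 / (576 * C * s * lam))
    (hsm : s * Real.exp (-(s / 6)) ≤ 1 / (96 * C * lam)) (hY0 : 0 < Yr) (hYu : Yr ≤ 3 * lam * L)
    (g0 : 0 ≤ q1) (g1 : q1 ≤ 2 * s) (g2 : 0 ≤ q2) (g3 : q2 ≤ 5 * (1 - a)) (g4 : 0 ≤ q3)
    (g5 : q3 ≤ Real.exp (-(s / 6))) (g6 : 0 ≤ 7 / ℓ ^ 2) (g7 : 7 / ℓ ^ 2 ≤ 1 - a) :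
    C0 * q1 * (Yr * (q2 + q3 + 7 / ℓ ^ 2)) ≤ L / 8 := by
  have q5 : C0 * q1 ≤ C * (2 * s) := mul_le_mul hC0C g1 g0 hC.le
  have q4 : q2 + q3 + 7 / ℓ ^ 2 ≤ 6 * (1 - a) + Real.exp (-(s / 6)) := by linarith
  have q6 : 0 ≤ q2 + q3 + 7 / ℓ ^ 2 := by linarith
  have h1a0 : 0 < 1 - a := by rw [h1a]; positivity
  calc C0 * q1 * (Yr * (q2 + q3 + 7 / ℓ ^ 2))
      ≤ C * (2 * s) * (3 * lam * L * (6 * (1 - a) + Real.exp (-(s / 6)))) := by
        refine mul_le_mul q5 (mul_le_mul hYu q4 q6 (by positivity)) (by positivity) (by positivity)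
    _ = 36 * C * s * lam * (1 - a) * L + 6 * C * lam * (s * Real.exp (-(s / 6))) * L := by ring
    _ ≤ L / 16 + L / 16 := by
        refine add_le_add ?_ ?_
        · rw [h1a]
          refine le_of_eq ?_
          field_simp
          norm_num
        · calc 6 * C * lam * (s * Real.exp (-(s / 6))) * L ≤ 6 * C * lam * (1 / (96 * C * lam)) * L := by
                refine mul_le_mul_of_nonneg_right ?_ hL0.le
                exact mul_le_mul_of_nonneg_left hsm (by positivity)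
            _ = L / 16 := by
                field_simp
                norm_num
    _ = L / 8 := by ring

/-- the constants -/
theorem consts {C : ℝ} (hC1 : 1 ≤ C) : ∃ K : ℝ, 12 ≤ K ∧ ∀ lam : ℝ, 2 ≤ lam → ∀ s : ℝ, s = K * Real.log lam →
    1 ≤ s ∧ s * Real.exp (-(s / 6)) ≤ 1 / (96 * C * lam) := by
  have hC : 0 < C := by linarith
  obtain ⟨K, hK⟩ : ∃ K : ℝ, K = 12 * (1 + Real.log (1152 * C) / Real.log 2) := ⟨_, rfl⟩
  have hl2 : 0.69 < Real.log 2 := by
    have := Real.log_two_gt_d9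
    linarith
  have hl20 : 0 < Real.log 2 := by linarith
  have hlogC : 0 ≤ Real.log (1152 * C) := Real.log_nonneg (by linarith)
  have hK12 : 12 ≤ K := by
    rw [hK]
    have : 0 ≤ Real.log (1152 * C) / Real.log 2 := by positivity
    linarith
  refine ⟨K, hK12, fun lam hlam s hs => ?_⟩
  have hlam0 : 0 < lam := by linarith
  have hll : Real.log 2 ≤ Real.log lam := Real.log_le_log (by norm_num) hlam
  have hs1 : 1 ≤ s := by
    rw [hs]
    calc (1 : ℝ) ≤ 12 * 0.69 := by norm_num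
      _ ≤ K * Real.log lam := mul_le_mul hK12 (by linarith) (by norm_num) (by linarith)
  refine ⟨hs1, ?_⟩
  have h1 : s ≤ 12 * Real.exp (s / 12) := by
    have := Real.add_one_le_exp (s / 12)
    linarith
  have h2 : s * Real.exp (-(s / 6)) ≤ 12 * Real.exp (-(s / 12)) := by
    calc s * Real.exp (-(s / 6)) ≤ 12 * Real.exp (s / 12) * Real.exp (-(s / 6)) :=
          mul_le_mul_of_nonneg_right h1 (Real.exp_pos _).le
      _ = 12 * Real.exp (-(s / 12)) := by
          rw [mul_assoc, ← Real.exp_add]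
          congr 2
          ring
  refine h2.trans ?_
  have h3 : Real.log (1152 * C * lam) ≤ s / 12 := by
    rw [Real.log_mul (by positivity) (by positivity), hs, hK]
    have h4 : Real.log (1152 * C) ≤ Real.log (1152 * C) / Real.log 2 * Real.log lam := by
      rw [div_mul_eq_mul_div, le_div_iff₀ hl20]
      exact mul_le_mul_of_nonneg_left hll hlogC
    linarith
  have h4 : 1152 * C * lam ≤ Real.exp (s / 12) := by
    rw [← Real.exp_log (show 0 < 1152 * C * lam by positivity)]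
    exact Real.exp_le_exp.2 h3
  rw [Real.exp_neg, ← div_eq_mul_inv, div_le_div_iff₀ (Real.exp_pos _) (by positivity)]
  linarith

/-- from the rows to the empty intervals -/
theorem rows_empty {X L : ℝ} {N Y : ℕ} (hNX : (N : ℝ) = 3 * X) (hL0 : 0 < L) :
    rowset X (fun n => L * cnt n Y ≤ (1 + 1) * (L / 4)) ⊆
      (Icc 1 N).filter (fun n : ℕ => ((Ioc n (n + Y)).filter Nat.Prime).card = 0) := by
  intro n hn
  obtain ⟨⟨m1, m2⟩, m3, m4, m5⟩ := mem_rowset.1 hn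
  rw [← hNX, Nat.floor_natCast] at m2
  rw [mem_filter, mem_Icc]
  refine ⟨⟨m1, m2⟩, ?_⟩
  have h1 : cnt n Y = 0 := by
    by_contra h
    have h2 : (1 : ℝ) ≤ cnt n Y := by exact_mod_cast Nat.pos_of_ne_zero h
    have h3 : L * 1 ≤ L * cnt n Y := mul_le_mul_of_nonneg_left h2 hL0.le
    linarith
  rw [card_eq_zero, filter_eq_empty_iff]
  intro p hp hpp
  rw [mem_Ioc] at hp
  unfold cnt at h1
  rw [card_eq_zero, filter_eq_empty_iff] at h1
  refine h1 (x := p - n) (mem_Icc.2 ⟨by omega, by omega⟩) ?_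
  have : n + (p - n) = p := by omega
  rw [this]
  exact hpp

/-- the frequency of empty intervals -/
theorem freq_empty : ∃ c : ℝ, 0 < c ∧ ∀ lam : ℝ, 2 ≤ lam → ∃ N₀ : ℕ, ∀ N : ℕ, N₀ ≤ N →
    N * Real.exp (-(Real.log N ^ (1 - c / (lam * Real.log lam)))) ≤
      (((Icc 1 N).filter (fun n : ℕ => ((Ioc n (n + ⌈lam * Real.log N⌉₊)).filter Nat.Prime).card = 0)).card : ℝ) := by
  obtain ⟨C0, Y1, hC0, HC⟩ := class_up
  obtain ⟨cM, hcM, HM⟩ := Pool.Agent.Y835.SB.prod_ge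
  obtain ⟨C, hC1, hC0C⟩ : ∃ C : ℝ, 1 ≤ C ∧ C0 ≤ C := ⟨max C0 1, le_max_right _ _, le_max_left _ _⟩
  have hC : 0 < C := by linarith only [hC1]
  obtain ⟨K, hK12, HK⟩ := consts hC1
  have hK0 : 0 < K := by linarith only [hK12]
  refine ⟨1 / (1152 * C * K), by positivity, fun lam hlam => ?_⟩
  have hlam0 : 0 < lam := by linarith only [hlam]
  have hll0 : 0 < Real.log lam := Real.log_pos (by linarith only [hlam])
  obtain ⟨s, hs⟩ : ∃ s : ℝ, s = K * Real.log lam := ⟨_, rfl⟩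
  obtain ⟨hs1, hsm⟩ := HK lam hlam s hs
  clear HK
  have hs0 : 0 < s := by linarith only [hs1]
  obtain ⟨a', ha'⟩ : ∃ a' : ℝ, a' = 1 - 1 / (576 * C * s * lam) := ⟨_, rfl⟩
  have hq0 : 0 < 1 / (576 * C * s * lam) := by positivity
  have hq1 : 1 / (576 * C * s * lam) ≤ 1 / 2 := by
    refine one_div_le_one_div_of_le (by norm_num) ?_
    have h1 : 576 * 1 * 1 * 2 ≤ 576 * C * s * lam := by gcongr
    linarith only [h1]
  have ha'1 : a' < 1 := by linarith only [ha', hq0]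
  have ha'2 : 1 / 2 ≤ a' := by linarith only [ha', hq1]
  have ha'0 : 0 < a' := by linarith only [ha'2]
  have h1a : 1 - a' = 1 / (576 * C * s * lam) := by linarith only [ha']
  obtain ⟨a, ha⟩ : ∃ a : ℝ, a = 1 - 1 / (1152 * C * K) / (lam * Real.log lam) := ⟨_, rfl⟩
  have haa : a' < a := by
    have h1 : 1 / (1152 * C * K) / (lam * Real.log lam) = 1 / (576 * C * s * lam) / 2 := by
      rw [hs]
      field_simp
      norm_num
    rw [ha, ha', h1]
    linarith only [hq0]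
  rw [← ha]
  obtain ⟨X0, hX0⟩ := rows_up 1 one_pos le_rfl 1
  have hN := tendsto_natCast_atTop_atTop (R := ℝ)
  have tX : Tendsto (fun N : ℕ => (N : ℝ) / 3) atTop atTop := hN.atTop_div_const (by norm_num)
  have tL : Tendsto (fun N : ℕ => Real.log ((N : ℝ) / 3)) atTop atTop := Real.tendsto_log_atTop.comp tX
  have tlN : Tendsto (fun N : ℕ => Real.log (N : ℝ)) atTop atTop := Real.tendsto_log_atTop.comp hN
  obtain ⟨N₀, hN₀⟩ := ((tX.eventually_ge_atTop (max X0 40)).and ((tL.eventually (evF a' s lam cM Y1 ha'2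
    ha'1 hs1 hlam hcM)).and (tlN.eventually (evFin a a' ha'0 haa)))).exists_forall_of_atTop
  clear hN tX tL tlN
  refine ⟨N₀, fun N hNN => ?_⟩
  obtain ⟨b1, ⟨e1, e2, e3, e4, e5, e6, e7, e8, e9, e10, e11⟩, b3⟩ := hN₀ N hNN
  clear hN₀
  obtain ⟨X, hX⟩ : ∃ X : ℝ, X = (N : ℝ) / 3 := ⟨_, rfl⟩
  rw [← hX] at b1 e1 e2 e3 e4 e5 e6 e7 e8 e9 e10 e11
  have hXX0 : X0 ≤ X := (le_max_left _ _).trans b1
  have hX40 : 40 ≤ X := (le_max_right _ _).trans b1
  have hXpos : 0 < X := by linarith only [hX40]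
  have hNX : (N : ℝ) = 3 * X := by rw [hX]; ring
  obtain ⟨L, hL⟩ : ∃ L : ℝ, L = Real.log X := ⟨_, rfl⟩
  rw [← hL] at e1 e2 e3 e4 e5 e6 e7 e8 e9 e10 e11
  have hL0 : 0 < L := by linarith only [e1]
  obtain ⟨ℓ, hℓ⟩ : ∃ ℓ : ℝ, ℓ = Real.log L := ⟨_, rfl⟩
  rw [← hℓ] at e2 e6 e7 e8 e9 e10
  have hℓ0 : 0 < ℓ := by linarith only [e2]
  obtain ⟨ps, S, hps, hS, HR⟩ := hX0 X hXX0
  clear hX0
  -- the parameters
  obtain ⟨D, hD⟩ : ∃ D : ℝ, D = L ^ (1 - a') := ⟨_, rfl⟩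
  rw [← hD] at e3
  have hD0 : 0 < D := by linarith only [e3]
  have hLD : L / D = L ^ a' := by
    rw [hD, Real.rpow_sub hL0, Real.rpow_one]
    field_simp
  obtain ⟨z, hz⟩ : ∃ z : ℕ, z = ⌊Real.log X / D⌋₊ := ⟨_, rfl⟩
  obtain ⟨z1, hz1⟩ : ∃ z1 : ℕ, z1 = ⌊L ^ (a' / s)⌋₊ := ⟨_, rfl⟩
  obtain ⟨Y, hY⟩ : ∃ Y : ℕ, Y = ⌈lam * Real.log N⌉₊ := ⟨_, rfl⟩
  rw [← hY]
  have hzu : (z : ℝ) ≤ L ^ a' := by
    rw [hz, ← hL, hLD]
    exact Nat.floor_le (by positivity)
  have hzl : L ^ a' < z + 1 := by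
    rw [hz, ← hL, hLD]
    exact Nat.lt_floor_add_one _
  have hz1u : (z1 : ℝ) ≤ L ^ (a' / s) := by
    rw [hz1]
    exact Nat.floor_le (by positivity)
  have hz1l : L ^ (a' / s) < z1 + 1 := by
    rw [hz1]
    exact Nat.lt_floor_add_one _
  have hY1z : Y1 ≤ z := by
    have : (Y1 : ℝ) ≤ z := by linarith only [e4, hzl]
    exact_mod_cast this
  have hz1_2 : 2 ≤ z1 := by
    have : (2 : ℝ) ≤ z1 := by linarith only [e5, hz1l]
    exact_mod_cast this
  have hz1z : z1 ≤ z := by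
    rw [hz1, hz, ← hL, hLD]
    refine Nat.floor_le_floor (Real.rpow_le_rpow_of_exponent_le e1.le ?_)
    exact div_le_self ha'0.le hs1
  have hz1r : (2 : ℝ) ≤ z1 := by exact_mod_cast hz1_2
  have hzr : (2 : ℝ) ≤ z := hz1r.trans (by exact_mod_cast hz1z)
  have hzl2 : L ^ a' / 2 ≤ z := by linarith only [hzl, hzr]
  have hz1l2 : L ^ (a' / s) / 2 ≤ z1 := by linarith only [hz1l, hz1r]
  have hlogN : Real.log N = L + Real.log 3 := by
    rw [hNX, Real.log_mul (by norm_num) hXpos.ne', ← hL]; ring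
  have hlog3 := log3_le
  have hlog3' : 0 < Real.log 3 := Real.log_pos (by norm_num)
  have hL7 : 3 ≤ L := by
    have h1 := Real.add_one_le_exp ℓ
    rw [hℓ, Real.exp_log hL0, ← hℓ] at h1
    linarith only [h1, e2]
  have hYu : (Y : ℝ) ≤ 3 * lam * L := by
    have h1 : (Y : ℝ) < lam * Real.log N + 1 := by
      rw [hY]
      exact Nat.ceil_lt_add_one (by rw [hlogN]; positivity)
    rw [hlogN, mul_add] at h1
    have h2 : lam * 3 ≤ lam * L := mul_le_mul_of_nonneg_left hL7 hlam0.le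
    have h3 : lam * Real.log 3 ≤ lam * 1.2 := mul_le_mul_of_nonneg_left hlog3 hlam0.le
    have h4 : 3 * lam * L = 3 * (lam * L) := by ring
    rw [h4]
    linarith only [h1, h2, h3, hlam]
  have hYl : L ≤ Y := by
    have h1 : lam * Real.log N ≤ Y := by
      rw [hY]
      exact Nat.le_ceil _
    rw [hlogN, mul_add] at h1
    have h2 : 1 * L ≤ lam * L := mul_le_mul_of_nonneg_right (by linarith only [hlam]) hL0.le
    have h3 : 0 < lam * Real.log 3 := by positivity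
    linarith only [h1, h2, h3]
  have hLa : L ^ a' ≤ L := by
    calc L ^ a' ≤ L ^ (1 : ℝ) := Real.rpow_le_rpow_of_exponent_le e1.le ha'1.le
      _ = L := Real.rpow_one _
  have hzY : z ≤ Y := by
    have : (z : ℝ) ≤ Y := by linarith only [hzu, hLa, hYl]
    exact_mod_cast this
  have hYr : (0 : ℝ) < Y := by linarith only [hYl, hL0]
  obtain ⟨k1, k2, k3, k4⟩ := logs e1 hℓ ha'0 hs1 e6 hzu hzl2 hz1u hz1l2 hzr hz1r
  obtain ⟨g0, g1, g2, g3, g4⟩ := factors e1 hℓ ha'2 ha'1 hs1 hlam0 hzr hz1r k1 k2 k3 k4 hzl2 hzY hYu hYl e7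
  have hlz0 : 0 < Real.log z := Real.log_pos (by linarith only [hzr])
  have hE := exc_le (ps := ps) hS (by rw [← hL]; exact hℓ) hℓ0 (e9.trans hz1l2)
  obtain ⟨r, hr⟩ := HC X D ps S z z1 Y (7 / ℓ ^ 2) e3 (by linarith only [hX40]) hz hY1z hzY hz1_2 hz1z hE
  clear HC hE
  have hBE0 : 0 < BE (PD X D S ps) := BE_pos fun p hp => PD_prime hp
  have hV : (VV (WD X D S ps) r Y : ℝ) / BE (PD X D S ps) ≤ L / 8 :=
    hr.trans (survF hC hC0 hC0C hL0 hs0 hlam0 h1a hsm hYr hYu g0 g1 g2 g3 (Real.exp_pos _).le g4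
      (by positivity) e8)
  clear hr
  have h80 : 80 / BE (PD X D S ps) ≤ L / 16 := by
    have h1 := HM z (by exact_mod_cast hzr) (PD X D S ps) (fun p hp =>
      ⟨PD_prime hp, by rw [hz]; exact ((mem_PD e3 (by linarith only [hX40])).1 hp).1⟩)
    have h2 : cM / Real.log z ≤ BE (PD X D S ps) := h1
    rw [div_le_iff₀ hBE0]
    have h3 : Real.log z ≤ ℓ := by
      refine k1.trans ?_
      calc a' * ℓ ≤ 1 * ℓ := mul_le_mul_of_nonneg_right ha'1.le hℓ0.le
        _ = ℓ := one_mul _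
    have h4 : 80 ≤ 80 / cM * ℓ * (cM / Real.log z) := by
      have : 80 / cM * ℓ * (cM / Real.log z) = 80 * (ℓ / Real.log z) := by field_simp
      rw [this]
      have h5 : 1 ≤ ℓ / Real.log z := by rwa [le_div_iff₀ hlz0, one_mul]
      linarith only [h5]
    refine h4.trans ?_
    exact mul_le_mul e10 h2 (by positivity) (by positivity)
  have hA : ((VV (WD X D S ps) r Y : ℝ) + 80) / BE (PD X D S ps) ≤ L / 4 := by
    rw [add_div]
    linarith only [hV, h80, hL0]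
  have hrows := HR D (L / 4) r Y hD0 (by rw [← hL]; exact hYu.trans e11) (by positivity) hA
  rw [← hL, hLD] at hrows
  have hcard : ((rowset X (fun n => L * cnt n Y ≤ (1 + 1) * (L / 4))).card : ℝ) ≤
      (((Icc 1 N).filter (fun n : ℕ => ((Ioc n (n + Y)).filter Nat.Prime).card = 0)).card : ℝ) := by
    exact_mod_cast card_le_card (rows_empty hNX hL0)
  refine le_trans ?_ (hrows.trans hcard)
  have hlN : L ≤ Real.log N := by linarith only [hlogN, hlog3']
  have h1 : L ^ a' ≤ Real.log N ^ a' := Real.rpow_le_rpow hL0.le hlN ha'0.le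
  have h2 : Real.exp (-(Real.log N ^ a)) ≤ 1 / 600 * Real.exp (-(3 / 2 * L ^ a')) := by
    have h3 : Real.exp (-(Real.log N ^ a)) ≤ Real.exp (-(Real.log 600) + -(3 / 2 * L ^ a')) := by
      refine Real.exp_le_exp.2 ?_
      linarith only [b3, h1]
    rw [Real.exp_add, Real.exp_neg (Real.log 600), Real.exp_log (by norm_num)] at h3
    linarith only [h3]
  calc (N : ℝ) * Real.exp (-(Real.log N ^ a)) ≤ N * (1 / 600 * Real.exp (-(3 / 2 * L ^ a'))) :=
        mul_le_mul_of_nonneg_left h2 (Nat.cast_nonneg N)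
    _ = 1 / 200 * X * Real.exp (-(3 / 2 * L ^ a')) := by
        rw [hNX]
        ring

end Pool.Agent.R529
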